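import Pool.Agent.Lib.MP_60ff09_nt.QB.GGal

/-! Tensor products of two induced representations are sums of induced representations. -/

set_option autoImplicit false

open scoped Classical TensorProduct
open CategoryTheory MonoidalCategory

namespace Pool.Agent.Lib.MP_60ff09_nt.QB

variable {M L : Type} [Field M] [NumberField M] [Field L]

/-- The representation `V` is induced from the character `χ` of the subgroup fixing `ι`. -/
def Ind (V : Rep L (M ≃ₐ[ℚ] M)) (ι : M) (τ : M ≃ₐ[ℚ] M) (χ : (M ≃ₐ[ℚ] M) → L) : Prop :=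
  ∃ v : Module.Basis (Fin 2) L V, V.ρ τ (v 0) = v 1 ∧ ∀ σ : M ≃ₐ[ℚ] M, σ ι = ι →
    V.ρ σ (v 0) = χ σ • v 0

/-- The hypothesis of the theorem holds when the products of the first character with the second
character and with its conjugate are the quartic characters. -/
theorem theta2_of {Vg Vh : Rep L (M ≃ₐ[ℚ] M)} {ι : M} {τ : M ≃ₐ[ℚ] M} {χ ψ : (M ≃ₐ[ℚ] M) → L}
    {y : Fin 2 → M} {j : L} (hτ : τ ι = -ι) (hg : Ind Vg ι τ χ) (hh : Ind Vh ι τ ψ)
    (h0 : ∀ (σ : M ≃ₐ[ℚ] M) (k : ℕ), σ ι = ι → σ (y 0) = ι ^ k * y 0 → χ σ * ψ σ = j ^ k)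
    (h1 : ∀ (σ : M ≃ₐ[ℚ] M) (k : ℕ), σ ι = ι → σ (y 1) = ι ^ k * y 1 →
      χ σ * ψ (τ⁻¹ * σ * τ) = j ^ k) : Theta2 (Vg ⊗ Vh) ι y j := by
  obtain ⟨v, g1, g2⟩ := hg
  obtain ⟨u, k1, k2⟩ := hh
  have h4 : τ.symm ι = -ι := by
    rw [← neg_eq_iff_eq_neg, ← map_neg, ← hτ, AlgEquiv.symm_apply_apply]
  have e1 : Vh.ρ τ (u 1) = ψ (τ * τ) • u 0 := by
    rw [← k1, ← k2 _ (by simp [hτ]), ← Module.End.mul_apply, ← map_mul]
  have c0 : ψ (τ * τ) ≠ 0 := fun z => u.ne_zero 1 (by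
    rw [z, zero_smul] at e1
    rw [← Module.End.one_apply (R := L) (u 1), ← map_one Vh.ρ, ← inv_mul_cancel τ, map_mul,
      Module.End.mul_apply, e1, map_zero])
  let E : Fin 2 × Fin 2 ≃ Fin 2 × Fin 2 := Equiv.ofBijective (fun i => (i.2, i.1 + i.2)) (by decide)
  let c : Fin 2 × Fin 2 → Lˣ := fun i => if i = (1, 1) then Units.mk0 _ c0 else 1
  let w : Module.Basis (Fin 2 × Fin 2) L (Vg ⊗ Vh : Rep L (M ≃ₐ[ℚ] M)) :=
    ((v.tensorProduct u).reindex E.symm).unitsSMul c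
  have hw : ∀ i, w i = (c i : L) • v i.2 ⊗ₜ[L] u (i.1 + i.2) := fun i =>
    (Module.Basis.unitsSMul_apply i).trans (congrArg (c i • ·)
      ((Module.Basis.reindex_apply _ _ i).trans (Module.Basis.tensorProduct_apply v u _ _)))
  refine ⟨w, τ, hτ, Fin.forall_fin_two.2 ⟨⟨?_, fun σ k a b => ?_⟩, ?_, fun σ k a b => ?_⟩⟩
  · simp [hw, c, g1, k1]
  · simp [hw, c, g2 σ a, k2 σ a, ← TensorProduct.smul_tmul', smul_smul, ← h0 σ k a b, mul_comm]
  · simp [hw, c, g1, e1, show (1 : Fin 2) + 1 = 0 from rfl]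
  · have e2 : Vh.ρ σ (u 1) = ψ (τ⁻¹ * σ * τ) • u 1 := by
      rw [← k1, ← map_smul, ← k2 _ (by simp [hτ, h4, a]), ← Module.End.mul_apply, ← map_mul,
        ← Module.End.mul_apply, ← map_mul]
      congr 2
      group
    simp [hw, c, g2 σ a, e2, ← TensorProduct.smul_tmul', smul_smul, ← h1 σ k a b, mul_comm]

end Pool.Agent.Lib.MP_60ff09_nt.QB
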