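import Pool.Agent.Lib.MP_60ff09_nt.QB.Quad

/-! The Euler factors, and the conjecture from the four quartic twists. -/

set_option autoImplicit false

open scoped Classical TensorProduct
open NumberField CategoryTheory MonoidalCategory
open Pool.Agent.Lib.MP_696deb_nt Pool.Agent.Lib.MP_696deb_nt.Q4
open Pool.Agent.Lib.MP_696deb_nt.QF (cnt)

namespace Pool.Agent.Lib.MP_60ff09_nt.QB

open V4 V6

/-- The inverse of the Euler factor of the twist by `N`. -/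
noncomputable def lf (N : ℤ) (p : ℕ) (s : ℂ) : ℂ :=
  if (p : ℤ) ∣ 2 * N then 1 else
    1 - ((p : ℂ) - (cnt N p : ℂ)) * (p : ℂ) ^ (-s) + (p : ℂ) ^ (1 - 2 * s)

theorem dvd_pw {A D : ℤ} {p : ℕ} (hp : p.Prime) (i : Fin 2 × Fin 2) :
    (p : ℤ) ∣ pw A D i ↔ (p : ℤ) ∣ A * D := by
  have hP := Nat.prime_iff_prime_int.1 hp
  simp only [pw, hP.dvd_mul, hP.dvd_pow_iff_dvd (Nat.succ_ne_zero _)]

theorem cnt_bad {B : ℤ} {p : ℕ} (hp : p.Prime) (h : (p : ℤ) ∣ 2 * B) : cnt B p = p := by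
  have := Fact.mk hp
  rcases (Nat.prime_iff_prime_int.1 hp).dvd_or_dvd h with k | k
  · obtain rfl := (Nat.prime_dvd_prime_iff_eq hp Nat.prime_two).1 (by exact_mod_cast k)
    rw [cnt, Nat.card_eq_fintype_card]
    generalize ((-B : ℤ) : ZMod 2) = b
    revert b
    decide
  rw [cnt, (ZMod.intCast_zmod_eq_zero_iff_dvd _ p).2 k.neg_right]
  refine (Nat.card_eq_of_bijective (fun t : ZMod p => ⟨(t ^ 2, t ^ 3), by simp; ring⟩)
    ⟨fun t s e => ?_, fun ⟨⟨x, y⟩, e⟩ => ⟨y / x, ?_⟩⟩).symm.trans (Nat.card_zmod p)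
  · obtain ⟨e1, e2⟩ := Prod.mk.inj (congrArg Subtype.val e)
    by_cases h0 : s = 0
    · rw [h0] at e1 ⊢
      simpa using e1
    · exact mul_left_cancel₀ (pow_ne_zero 2 h0) (by linear_combination e2 - t * e1)
  · have e1 : y ^ 2 = x ^ 3 := by simpa using e
    by_cases h0 : x = 0
    · have h1 : y = 0 := by simpa [h0] using e1
      simp [h0, h1]
    · refine Subtype.ext (Prod.ext ?_ ?_) <;> field_simp
      · linear_combination e1
      · linear_combination y * e1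

theorem cpow_eq {p : ℕ} (hp : p.Prime) (s : ℂ) :
    (p : ℂ) ^ (1 - 2 * s) = p * ((p : ℂ) ^ (-s)) ^ 2 := by
  have hp0 : (p : ℂ) ≠ 0 := Nat.cast_ne_zero.2 hp.ne_zero
  rw [sub_eq_add_neg, Complex.cpow_add _ _ hp0, Complex.cpow_one, sq, ← Complex.cpow_add _ _ hp0]
  congr 2
  ring

theorem eulN_diag {W κ : Type} [AddCommGroup W] [Module ℂ W] [Fintype κ] (w : Module.Basis κ ℂ W)
    {T : Module.End ℂ W} {θ η : κ → ℂ} {a : ℤ} (h1 : ∀ i, (a : ℂ) • T (w i) = (a * θ i) • w i)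
    (h2 : ∀ i, T (T (w i)) = η i • w i) {n p : ℕ} (hp : ¬ p ∣ n) (s : ℂ) :
    eulN n T a p s = ∏ i, (1 - a * θ i * (p : ℂ) ^ (-s) + η i * (p : ℂ) ^ (1 - 2 * s)) := by
  refine det_diag w _ _ fun i => ?_
  rw [if_neg hp, LinearMap.add_apply, LinearMap.sub_apply, LinearMap.smul_apply,
    LinearMap.smul_apply, sq, Module.End.mul_apply, h2, mul_comm (a : ℂ), mul_smul, h1,
    Module.End.one_apply]
  module

variable {M : Type} [Field M] [NumberField M] [IsGalois ℚ M] {ι α δ : M} {A B D : ℤ}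

theorem eul_eq {V : Rep ℂ (M ≃ₐ[ℚ] M)} {j : ℂ} (w : Module.Basis (Fin 2 × Fin 2) ℂ V)
    (h : ∀ (i) (σ : M ≃ₐ[ℚ] M), σ ι = ι →
      ∃ k : ℕ, σ (pw α δ i) = ι ^ k * pw α δ i ∧ V.ρ σ (w i) = j ^ k • w i)
    (hι : ι ^ 2 = -1) (hj : j ^ 2 = -1) (hα : α ^ 4 = A) (hδ : δ ^ 4 = D) (hs : Squarefree (A * D))
    {p : ℕ} (hp : p.Prime) {Q : Ideal (𝓞 M)} [Q.IsPrime] (hQ : (p : 𝓞 M) ∈ Q) {φ : M ≃ₐ[ℚ] M}
    (hφ : IsArithFrobAt ℤ φ Q) (s : ℂ) :
    eulN (2 * B).natAbs (onInv V (Q.inertia (M ≃ₐ[ℚ] M)) φ) (p - cnt B p) p s =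
      ∏ i, lf (B * pw A D i) p s := by
  have := Fact.mk hp
  have hy := pw_four hα hδ
  have y0 : ∀ i, pw α δ i ≠ 0 := fun i => link_ne (mul_ne_zero
    (pow_ne_zero _ (left_ne_zero_of_mul hs.ne_zero)) (pow_ne_zero _ (right_ne_zero_of_mul hs.ne_zero)))
    (hy i)
  have fix : ∀ (i) (σ : M ≃ₐ[ℚ] M), σ ι = ι → σ (pw α δ i) = pw α δ i → V.ρ σ (w i) = w i :=
    fun i σ e1 e2 => by
      obtain ⟨k, e3, e4⟩ := h i σ e1
      rw [e4, pow_one_of hι hj (mul_right_cancel₀ (y0 i) (e3.symm.trans (e2.trans (one_mul _).symm))),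
        one_smul]
  have i4 : ι ^ 4 = (1 : ℤ) := by exact_mod_cast pow_four hι
  have hP := Nat.prime_iff_prime_int.1 hp
  by_cases hb : (p : ℤ) ∣ 2 * B
  · simp [eulN, lf, cnt_bad hp hb, Int.natCast_dvd.1 hb, ← mul_assoc, hb.mul_right]
  have h3 : ¬ (p : ℤ) ∣ 2 * 1 := fun k => hb (k.trans (by simp))
  have h2 : p ≠ 2 := fun k => h3 (by simp [k])
  have h4 : ¬ p ∣ (2 * B).natAbs := mt Int.natCast_dvd.2 hb
  by_cases hd : (p : ℤ) ∣ A * D
  · obtain ⟨τ, hτ, e⟩ := exists_ine (δ := (α * δ) ^ 2) (d := A * D) (by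
      push_cast
      rw [← hα, ← hδ]
      ring) hs hp hQ hd
    have e0 : onInv V (Q.inertia (M ≃ₐ[ℚ] M)) φ = 0 := w.ext fun i => by
      obtain ⟨k, e1, e2⟩ := h i τ (ine_four i4 hp hQ h3 hτ)
      have e3 : pw α δ i ^ 2 = (α * δ) ^ 2 * (A ^ i.1.1 * D ^ i.2.1 : ℤ) := by
        push_cast
        rw [pw, ← hα, ← hδ]
        ring
      have e4 : τ (pw α δ i ^ 2) = -pw α δ i ^ 2 := by rw [e3, map_mul, e, map_intCast, neg_mul]
      rw [map_pow, e1, mul_pow] at e4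
      have e5 : ι ^ (k + k + 2) = 1 := by
        rw [pow_add, pow_add, hι, ← sq, mul_right_cancel₀ (pow_ne_zero 2 (y0 i))
          (e4.trans (neg_one_mul _).symm)]
        norm_num
      have e6 := pow_one_of hι hj e5
      rw [pow_add, pow_add, hj, mul_neg_one, neg_eq_iff_eq_neg] at e6
      refine onInv_zero _ _ _ (mul_mem hτ hτ) ?_
      rw [map_mul, Module.End.mul_apply, e2, map_smul, e2, smul_smul, e6, neg_one_smul]
    simp [e0, eulN, lf, fun i => (((dvd_pw hp i).2 hd).mul_left B).mul_left 2]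
  have h5 : ∀ i, ¬ (p : ℤ) ∣ 2 * pw A D i := fun i k =>
    (hP.dvd_or_dvd k).elim h3 fun k => hd ((dvd_pw hp i).1 k)
  have h5' : ∀ i, ¬ (p : ℤ) ∣ 2 * (B * pw A D i) := fun i k =>
    (hP.dvd_or_dvd (mul_assoc 2 B _ ▸ k)).elim hb fun k => hd ((dvd_pw hp i).1 k)
  have e0 : onInv V (Q.inertia (M ≃ₐ[ℚ] M)) φ = V.ρ φ := w.ext fun i => onInv_fix _ _ _
    fun τ hτ => fix i τ (ine_four i4 hp hQ h3 hτ) (ine_four (hy i) hp hQ (h5 i) hτ)
  rw [e0]
  simp only [lf, h5', if_false]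
  rcases (by have := hp.eq_two_or_odd; omega : p % 4 = 1 ∨ p % 4 = 3) with c | c
  swap
  · rw [eulN_diag w (θ := 0) (η := 1) (fun i => by simp [QF.count_three c]) (fun i => by
      rw [← Module.End.mul_apply, ← map_mul, fix i _ (frob_sq i4 hp hQ h3 c hφ)
        (frob_sq (hy i) hp hQ (h5 i) c hφ), Pi.one_apply, one_smul]) h4]
    simp [QF.count_three c]
  obtain ⟨z0, r, χ, hq⟩ := QF.exists_qc c
  obtain ⟨z, hz⟩ : ∃ z, z = star (χ B) * z0 := ⟨_, rfl⟩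
  have nrm : ∀ u v : QF.G, u * v = 1 → star u * u = 1 := fun u v e => by
    rw [mul_comm, ← Zsqrtd.norm_eq_mul_conj, (Zsqrtd.norm_eq_one_iff' (by norm_num) _).2
      (IsUnit.of_mul_eq_one _ e), Int.cast_one]
  obtain ⟨ε, h6, h7⟩ := frob_chi hq hι hQ hφ
  choose k k1 k2 using fun i => h i φ (frob_i hι hp hQ c hφ)
  have k3 : ∀ i, ι ^ (k i + k (op i)) = 1 := fun i => by
    have e : φ (pw α δ i * pw α δ (op i)) = pw α δ i * pw α δ (op i) := by
      rw [pw_op, hα, hδ, map_mul, map_intCast, map_intCast]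
    rw [map_mul, k1, k1, mul_mul_mul_comm, ← pow_add] at e
    exact mul_right_cancel₀ (mul_ne_zero (y0 _) (y0 _)) (e.trans (one_mul _).symm)
  have k4 : ∀ i, j ^ k i * j ^ k (op i) = 1 := fun i => by rw [← pow_add, pow_one_of hι hj (k3 i)]
  have k5 : ∀ i, star (ε ^ k i) = ε ^ k (op i) := fun i => by
    have e1 : ε ^ k i * ε ^ k (op i) = 1 := by rw [← pow_add, pow_one_of hι h6 (k3 i)]
    rw [← mul_one (star _), ← e1, ← mul_assoc, nrm _ _ e1, one_mul]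
  have k6 : ∀ i, (p : ℂ) - cnt (B * pw A D i) p =
      (ε : ℂ) ^ k (op i) * z + (ε : ℂ) ^ k i * (star z : QF.G) := fun i => by
    have e := hq.count (D := B * pw A D i) fun k => h5' i (k.mul_left 2)
    rw [Int.cast_mul, map_mul, h7 _ _ _ (h5 i) (hy i) (k1 i), star_mul', k5, mul_comm (star _),
      mul_assoc, ← hz, mul_comm (χ B), mul_assoc, ← star_star (χ B), ← star_mul', ← hz] at e
    simpa using congrArg GaussianInt.toComplex e
  have k7 : (((p : ℤ) - cnt B p : ℤ) : ℂ) = z + (star z : QF.G) := by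
    have e := hq.count (D := B) fun k => hb (k.mul_left 2)
    rw [← hz, ← star_star (χ B), ← star_mul', ← hz] at e
    simpa using congrArg GaussianInt.toComplex e
  have k8 : (p : ℂ) = z * (star z : QF.G) := by
    have e := Zsqrtd.norm_eq_mul_conj z0
    have e1 := nrm (χ B) (χ B ^ 3) (by
      rw [← pow_succ', hq.four _ fun k =>
        hb (((ZMod.intCast_zmod_eq_zero_iff_dvd B p).1 k).mul_left 2)])
    rw [hq.norm, ← one_mul (_ * _), ← e1, mul_mul_mul_comm, ← hz, ← star_star (χ B), ← star_mul',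
      ← hz] at e
    simpa using congrArg GaussianInt.toComplex e
  rw [eulN_diag w (θ := fun i => j ^ k i) (η := fun i => j ^ k i * j ^ k i)
    (fun i => by rw [k2, smul_smul]) (fun i => by rw [k2, map_smul, k2, smul_smul]) h4]
  simp only [k6, k7, cpow_eq hp]
  generalize (p : ℂ) ^ (-s) = X
  rw [k8]
  generalize ((star z : QF.G) : ℂ) = z'
  generalize (z : ℂ) = z
  have k9 := fun f : Fin 2 × Fin 2 → ℂ => Equiv.prod_comp (Function.Involutive.toPerm op op_op) f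
  have e1 : ∏ i, (1 - (z + z') * j ^ k i * X + j ^ k i * j ^ k i * (z * z' * X ^ 2)) =
      (∏ i, (1 - z * j ^ k i * X)) * ∏ i, (1 - z' * j ^ k i * X) := by
    rw [← Finset.prod_mul_distrib]
    exact Finset.prod_congr rfl fun i _ => by ring
  have h8 : (ε : ℂ) ^ 2 = j ^ 2 := by
    rw [hj, ← map_pow, h6]
    simp
  rw [e1]
  rcases sq_eq_sq_iff_eq_or_eq_neg.1 h8 with e | e
  · rw [e, ← k9 fun i => 1 - z * j ^ k i * X, ← Finset.prod_mul_distrib]
    exact Finset.prod_congr rfl fun i _ => by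
      rw [Function.Involutive.coe_toPerm]
      linear_combination z * z' * X ^ 2 * k4 i
  · have e2 : ∀ i, (ε : ℂ) ^ k i = j ^ k (op i) := fun i => by
      rw [← mul_one (_ ^ _), ← k4 i, ← mul_assoc, ← mul_pow, e, neg_mul, ← sq, hj, neg_neg, one_pow,
        one_mul]
    rw [← k9 fun i => 1 - z' * j ^ k i * X, ← Finset.prod_mul_distrib]
    exact Finset.prod_congr rfl fun i _ => by
      rw [Function.Involutive.coe_toPerm, e2, e2, op_op]
      linear_combination z * z' * X ^ 2 * k4 i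

/-- The function `F` is entire and given by the Euler product of the twist by `N`. -/
def IsF (N : ℤ) (F : ℂ → ℂ) : Prop := Differentiable ℂ F ∧
  ∀ s : ℂ, (3 : ℝ) / 2 < s.re → HasProd (fun p : ℕ =>
    if p.Prime ∧ ¬ ((p : ℤ) ∣ 2 * (-4 * (-N) ^ 3 - 27 * 0 ^ 2)) then
      (1 - ((p : ℂ) - (cnt N p : ℂ)) * (p : ℂ) ^ (-s) + (p : ℂ) ^ (1 - 2 * s))⁻¹ else 1) (F s)

theorem Eb_eq (B : ℤ) : Eb B = ED B := by simp [ED, Eb]

theorem ab_eq (B : ℤ) : ab B = fun p : ℕ => (p : ℤ) - cnt B p :=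
  funext fun p => by simp [ab, cnt, sub_eq_add_neg]

theorem isLN {L : Type} [Field L] [Algebra L ℂ] {j : L} {V : Rep L (M ≃ₐ[ℚ] M)}
    (hV : Quad V ι j (pw α δ)) (hι : ι ^ 2 = -1) (hj : j ^ 2 = -1) (hα : α ^ 4 = A)
    (hδ : δ ^ 4 = D) (hs : Squarefree (A * D)) {F : Fin 2 × Fin 2 → ℂ → ℂ}
    (h : ∀ i, IsF (B * pw A D i) (F i)) : IsLN (2 * B).natAbs (ab B) (bc ℂ V) (∏ i, F i) := by
  intro Q φ hQ s hs'
  obtain ⟨w, hw, -⟩ := hV
  let w' : Module.Basis (Fin 2 × Fin 2) ℂ (bc ℂ V) := w.baseChange ℂ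
  have e5 : ∀ i, w' i = (1 : ℂ) ⊗ₜ[L] w i := fun i => w.baseChange_apply ℂ i
  rw [Finset.prod_apply, ab_eq]
  convert hasProd_prod (s := Finset.univ) fun i _ => (h i).2 s hs' using 2 with p
  by_cases hp : p.Prime
  · obtain ⟨q1, q2, q3⟩ := hQ p hp
    rw [if_pos hp, eul_eq w' (j := algebraMap L ℂ j) (fun i σ k => ?_) hι
      (by rw [← map_pow, hj, map_neg, map_one]) hα hδ hs hp q2 q3, ← Finset.prod_inv_distrib]
    · refine Finset.prod_congr rfl fun i _ => ?_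
      have hP := Nat.prime_iff_prime_int.1 hp
      generalize B * pw A D i = N
      have e : (p : ℤ) ∣ 2 * (-4 * (-N) ^ 3 - 27 * 0 ^ 2) ↔ (p : ℤ) ∣ 2 * N := by
        rw [show 2 * (-4 * (-N) ^ 3 - 27 * 0 ^ 2) = (2 * N) ^ 3 by ring,
          hP.dvd_pow_iff_dvd three_ne_zero]
      simp only [lf, hp, true_and, e]
      split_ifs <;> simp
    · obtain ⟨k, e3, e4⟩ := hw i σ k
      refine ⟨k, e3, ?_⟩
      rw [e5, bc_tmul, e4, TensorProduct.tmul_smul, ← map_pow]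
      exact (algebraMap_smul ℂ (j ^ k) ((1 : ℂ) ⊗ₜ[L] w i)).symm
  · simp [hp]

/-- The number `r` lies between the rank and the analytic rank of the twist by `N`. -/
def Mid (N : ℤ) (r : ℕ) (F : ℂ → ℂ) : Prop := IsF N F ∧ Module.Finite ℤ (ED N).toAffine.Point ∧
  Module.finrank ℤ (ED N).toAffine.Point ≤ r ∧ (r : ℕ∞) ≤ analyticOrderAt F 1

theorem pw_ne (hs : Squarefree (A * D)) (i : Fin 2 × Fin 2) : pw A D i ≠ 0 :=
  mul_ne_zero (pow_ne_zero _ (left_ne_zero_of_mul hs.ne_zero))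
    (pow_ne_zero _ (right_ne_zero_of_mul hs.ne_zero))

theorem order_prod {κ : Type} (s : Finset κ) {F : κ → ℂ → ℂ} (h : ∀ i, Differentiable ℂ (F i)) :
    analyticOrderAt (∏ i ∈ s, F i) 1 = ∑ i ∈ s, analyticOrderAt (F i) 1 := by
  induction s using Finset.induction_on with
  | empty => exact analyticAt_const.analyticOrderAt_eq_zero.2 one_ne_zero
  | insert i s hi ih =>
    rw [Finset.prod_insert hi, Finset.sum_insert hi, analyticOrderAt_mul ((h i).analyticAt 1)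
      ((Differentiable.finsetProd fun i _ => h i).analyticAt 1), ih]

theorem bound_of (hB : B ≠ 0) (hs : Squarefree (A * D)) {r : Fin 2 × Fin 2 → ℕ}
    (h : ∀ i, ∃ F, Mid (B * pw A D i) (r i) F) : BoundQ B A D (∑ i, r i) := by
  intro M L _ _ _ _ _ ι α β δ j Vg Vh hι hα hβ hδ hj hg hh
  have : CharZero L := (algebraMap L ℂ).charZero
  choose F h1 h2 h3 h4 using h
  have hV := quad_tensor hι hα hδ hg hh
  obtain ⟨k1, k2⟩ := hom_le hV hι hj hB hβ (pw_four hα hδ) (pw_ne hs) h2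
  rw [Eb_eq]
  refine ⟨∏ i, F i, Differentiable.finsetProd fun i _ => (h1 i).1, isLN hV hι hj hα hδ hs h1, k1,
    k2.trans (Finset.sum_le_sum fun i _ => h3 i), ?_⟩
  rw [order_prod _ fun i => (h1 i).1, Nat.cast_sum]
  exact Finset.sum_le_sum fun i _ => h4 i

theorem holds_of (hB : B ≠ 0) (hs : Squarefree (A * D))
    (h : ∀ i, ∃ F, Mid (B * pw A D i) 0 F ∧ F 1 ≠ 0) : HoldsQ B A D 0 := by
  intro M L _ _ _ _ _ ι α β δ j Vg Vh hι hα hβ hδ hj hg hh
  have : CharZero L := (algebraMap L ℂ).charZero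
  choose F h0 h5 using h
  choose h1 h2 h3 h4 using h0
  have hV := quad_tensor hι hα hδ hg hh
  obtain ⟨k1, k2⟩ := hom_le hV hι hj hB hβ (pw_four hα hδ) (pw_ne hs) h2
  have k3 := Nat.le_zero.1 (k2.trans (Finset.sum_nonpos fun i _ => h3 i))
  have k4 : Differentiable ℂ (∏ i, F i) := Differentiable.finsetProd fun i _ => (h1 i).1
  rw [Eb_eq]
  refine ⟨∏ i, F i, k4, isLN hV hι hj hα hδ hs h1, k1, ?_, k3⟩
  rw [k3, Nat.cast_zero, (k4.analyticAt 1).analyticOrderAt_eq_zero, Finset.prod_apply]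
  exact Finset.prod_ne_zero_iff.2 fun i _ => h5 i

end Pool.Agent.Lib.MP_60ff09_nt.QB
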