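import Pool.Agent.Lib.MP_60ff09_nt.QB.GGal
import Pool.Agent.Lib.MP_60ff09_nt.QB.Eul

/-! The Euler factors for sums of induced representations. -/

set_option autoImplicit false

open scoped Classical TensorProduct
open NumberField CategoryTheory MonoidalCategory
open Pool.Agent.Lib.MP_696deb_nt Pool.Agent.Lib.MP_696deb_nt.Q4
open Pool.Agent.Lib.MP_696deb_nt.QF (cnt)

namespace Pool.Agent.Lib.MP_60ff09_nt.QB

open V4 V6

variable {M : Type} [Field M] [NumberField M] [IsGalois ℚ M] {ι : M} {B : ℤ} {κ : Type} [Fintype κ]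
  {y : κ → M} {N : κ → ℤ} {o : κ → κ}

theorem eul_gen {V : Rep ℂ (M ≃ₐ[ℚ] M)} {j : ℂ} (w : Module.Basis κ ℂ V)
    (h : ∀ (i) (σ : M ≃ₐ[ℚ] M), σ ι = ι → ∃ k : ℕ, σ (y i) = ι ^ k * y i ∧ V.ρ σ (w i) = j ^ k • w i)
    (hι : ι ^ 2 = -1) (hj : j ^ 2 = -1) (hy : ∀ i, y i ^ 4 = N i) (hN : ∀ i, QA.Fam (N i))
    (oo : Function.Involutive o) (ho : ∀ (i) (σ : M ≃ₐ[ℚ] M), σ (y i * y (o i)) = y i * y (o i))
    {p : ℕ} (hp : p.Prime) {Q : Ideal (𝓞 M)} [Q.IsPrime] (hQ : (p : 𝓞 M) ∈ Q) {φ : M ≃ₐ[ℚ] M}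
    (hφ : IsArithFrobAt ℤ φ Q) (s : ℂ) :
    eulN (2 * B).natAbs (onInv V (Q.inertia (M ≃ₐ[ℚ] M)) φ) (p - cnt B p) p s =
      ∏ i, lf (B * N i) p s := by
  have := Fact.mk hp
  have y0 : ∀ i, y i ≠ 0 := fun i => link_ne (hN i).ne (hy i)
  have fix : ∀ (i) (σ : M ≃ₐ[ℚ] M), σ ι = ι → σ (y i) = y i → V.ρ σ (w i) = w i :=
    fun i σ e1 e2 => by
      obtain ⟨k, e3, e4⟩ := h i σ e1
      rw [e4, pow_one_of hι hj (mul_right_cancel₀ (y0 i) (e3.symm.trans (e2.trans (one_mul _).symm))),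
        one_smul]
  have i4 : ι ^ 4 = (1 : ℤ) := by exact_mod_cast pow_four hι
  have hP := Nat.prime_iff_prime_int.1 hp
  by_cases hb : (p : ℤ) ∣ 2 * B
  · simp [eulN, lf, cnt_bad hp hb, Int.natCast_dvd.1 hb, ← mul_assoc, hb.mul_right]
  have h3 : ¬ (p : ℤ) ∣ 2 * 1 := fun k => hb (k.trans (by simp))
  have h2 : p ≠ 2 := fun k => h3 (by simp [k])
  have h4 : ¬ p ∣ (2 * B).natAbs := mt Int.natCast_dvd.2 hb
  have h5 : ∀ i, ¬ (p : ℤ) ∣ N i → ¬ (p : ℤ) ∣ 2 * N i := fun i e k =>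
    (hP.dvd_or_dvd k).elim h3 e
  have h5' : ∀ i, (p : ℤ) ∣ 2 * (B * N i) ↔ (p : ℤ) ∣ N i := fun i => by
    rw [← mul_assoc, hP.dvd_mul, or_iff_right hb]
  have e0 : ∀ i, (p : ℤ) ∣ N i → onInv V (Q.inertia (M ≃ₐ[ℚ] M)) φ (w i) = 0 := fun i hd => by
    obtain ⟨τ, hτ, e⟩ := exists_ine4 (hy i) hp hQ (hN i) hd
    obtain ⟨k, e1, e2⟩ := h i τ (ine_four i4 hp hQ h3 hτ)
    rw [pow_mod hι] at e1
    rw [pow_mod hj] at e2
    rcases (by omega : k % 4 = 0 ∨ k % 4 = 1 ∨ k % 4 = 2 ∨ k % 4 = 3) with c | c | c | c <;>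
      rw [c] at e1 e2
    · exact absurd (by simpa using e1) e
    · refine onInv_zero _ _ _ (mul_mem hτ hτ) ?_
      rw [map_mul, Module.End.mul_apply, e2, map_smul, e2, smul_smul, pow_one, ← sq, hj,
        neg_one_smul]
    · exact onInv_zero _ _ _ hτ (by rw [e2, hj, neg_one_smul])
    · refine onInv_zero _ _ _ (mul_mem hτ hτ) ?_
      rw [map_mul, Module.End.mul_apply, e2, map_smul, e2, smul_smul,
        show j ^ 3 * j ^ 3 = (j ^ 2) ^ 3 by ring, hj]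
      norm_num
  have e1 : ∀ i, ¬ (p : ℤ) ∣ N i → ∀ τ ∈ Q.inertia (M ≃ₐ[ℚ] M), V.ρ τ (w i) = w i :=
    fun i hd τ hτ => fix i τ (ine_four i4 hp hQ h3 hτ) (ine_four (hy i) hp hQ (h5 i hd) hτ)
  have e2 : ∀ i, (p : ℤ) ∣ N (o i) ↔ (p : ℤ) ∣ N i := by
    have k : ∀ i, (p : ℤ) ∣ N (o i) → (p : ℤ) ∣ N i := fun i hd => by_contra fun k => by
      obtain ⟨τ, hτ, e⟩ := exists_ine4 (hy _) hp hQ (hN _) hd
      have e' := ho i τ
      rw [map_mul, ine_four (hy i) hp hQ (h5 i k) hτ] at e'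
      exact e (mul_left_cancel₀ (y0 i) e')
    exact fun i => ⟨k i, fun e => k _ (by rwa [oo i])⟩
  simp only [lf, h5']
  rcases (by have := hp.eq_two_or_odd; omega : p % 4 = 1 ∨ p % 4 = 3) with c | c
  swap
  · rw [eulN_diag w (θ := 0) (η := fun i => if (p : ℤ) ∣ N i then 0 else 1)
      (fun i => by simp [QF.count_three c]) (fun i => ?_) h4]
    · exact Finset.prod_congr rfl fun i _ => by split_ifs <;> simp [QF.count_three c]
    split_ifs with hd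
    · rw [e0 i hd, map_zero, zero_smul]
    · rw [onInv_fix _ _ _ (e1 i hd), onInv_fix _ _ _ fun τ hτ => ?_, ← Module.End.mul_apply,
        ← map_mul, fix i _ (frob_sq i4 hp hQ h3 c hφ) (frob_sq (hy i) hp hQ (h5 i hd) c hφ),
        one_smul]
      rw [← Module.End.mul_apply, ← map_mul, show τ * φ = φ * (φ⁻¹ * τ * φ) by group, map_mul,
        Module.End.mul_apply, e1 i hd _ (ine_conj hφ hτ)]
  obtain ⟨z0, r, χ, hq⟩ := QF.exists_qc c
  obtain ⟨z, hz⟩ : ∃ z, z = star (χ B) * z0 := ⟨_, rfl⟩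
  have nrm : ∀ u v : QF.G, u * v = 1 → star u * u = 1 := fun u v e => by
    rw [mul_comm, ← Zsqrtd.norm_eq_mul_conj, (Zsqrtd.norm_eq_one_iff' (by norm_num) _).2
      (IsUnit.of_mul_eq_one _ e), Int.cast_one]
  obtain ⟨ε, h6, h7⟩ := frob_chi hq hι hQ hφ
  choose k k1 k2 using fun i => h i φ (frob_i hι hp hQ c hφ)
  have k3 : ∀ i, ι ^ (k i + k (o i)) = 1 := fun i => by
    have e := ho i φ
    rw [map_mul, k1, k1, mul_mul_mul_comm, ← pow_add] at e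
    exact mul_right_cancel₀ (mul_ne_zero (y0 _) (y0 _)) (e.trans (one_mul _).symm)
  have k4 : ∀ i, j ^ k i * j ^ k (o i) = 1 := fun i => by rw [← pow_add, pow_one_of hι hj (k3 i)]
  have k5 : ∀ i, star (ε ^ k i) = ε ^ k (o i) := fun i => by
    have e1 : ε ^ k i * ε ^ k (o i) = 1 := by rw [← pow_add, pow_one_of hι h6 (k3 i)]
    rw [← mul_one (star _), ← e1, ← mul_assoc, nrm _ _ e1, one_mul]
  have k6 : ∀ i, ¬ (p : ℤ) ∣ N i → (p : ℂ) - cnt (B * N i) p =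
      (ε : ℂ) ^ k (o i) * z + (ε : ℂ) ^ k i * (star z : QF.G) := fun i hd => by
    have e := hq.count (D := B * N i) fun k => hd ((h5' i).1 (k.mul_left 2))
    rw [Int.cast_mul, map_mul, h7 _ _ _ (h5 i hd) (hy i) (k1 i), star_mul', k5, mul_comm (star _),
      mul_assoc, ← hz, mul_comm (χ B), mul_assoc, ← star_star (χ B), ← star_mul', ← hz] at e
    simpa using congrArg GaussianInt.toComplex e
  have k7 : (((p : ℤ) - cnt B p : ℤ) : ℂ) = z + (star z : QF.G) := by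
    have e := hq.count (D := B) fun k => hb (k.mul_left 2)
    rw [← hz, ← star_star (χ B), ← star_mul', ← hz] at e
    simpa using congrArg GaussianInt.toComplex e
  have k8 : (p : ℂ) = z * (star z : QF.G) := by
    have e := Zsqrtd.norm_eq_mul_conj z0
    have e1 := nrm (χ B) (χ B ^ 3) (by
      rw [← pow_succ', hq.four _ fun k =>
        hb (((ZMod.intCast_zmod_eq_zero_iff_dvd B p).1 k).mul_left 2)])
    rw [hq.norm, ← one_mul (_ * _), ← e1, mul_mul_mul_comm, ← hz, ← star_star (χ B), ← star_mul',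
      ← hz] at e
    simpa using congrArg GaussianInt.toComplex e
  obtain ⟨θ, t1, t2⟩ : ∃ θ : κ → ℂ, (∀ i, (p : ℤ) ∣ N i → θ i = 0) ∧
      ∀ i, ¬ (p : ℤ) ∣ N i → θ i = j ^ k i :=
    ⟨fun i => if (p : ℤ) ∣ N i then 0 else j ^ k i, fun _ e => if_pos e, fun _ e => if_neg e⟩
  have t3 : ∀ i, onInv V (Q.inertia (M ≃ₐ[ℚ] M)) φ (w i) = θ i • w i := fun i => by
    by_cases hd : (p : ℤ) ∣ N i
    · rw [e0 i hd, t1 i hd, zero_smul]
    · rw [onInv_fix _ _ _ (e1 i hd), k2, t2 i hd]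
  rw [eulN_diag w (θ := θ) (η := fun i => θ i * θ i)
    (fun i => by rw [t3, smul_smul]) (fun i => by rw [t3, map_smul, t3, smul_smul]) h4]
  simp only [k7, cpow_eq hp]
  generalize (p : ℂ) ^ (-s) = X
  generalize ((star z : QF.G) : ℂ) = z' at k6 k8 ⊢
  generalize (z : ℂ) = z at k6 k8 ⊢
  have k9 := fun f : κ → ℂ => Equiv.prod_comp oo.toPerm f
  have e3 : ∏ i, (1 - (z + z') * θ i * X + θ i * θ i * (p * X ^ 2)) =
      (∏ i, (1 - z * θ i * X)) * ∏ i, (1 - z' * θ i * X) := by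
    rw [← Finset.prod_mul_distrib, k8]
    exact Finset.prod_congr rfl fun i _ => by ring
  have h8 : (ε : ℂ) ^ 2 = j ^ 2 := by
    rw [hj, ← map_pow, h6]
    simp
  rw [e3]
  rcases sq_eq_sq_iff_eq_or_eq_neg.1 h8 with e | e
  · rw [← k9 fun i => 1 - z * θ i * X, ← Finset.prod_mul_distrib]
    refine Finset.prod_congr rfl fun i _ => ?_
    rw [Function.Involutive.coe_toPerm]
    split_ifs with hd
    · simp [t1 i hd, t1 _ ((e2 i).2 hd)]
    · rw [t2 i hd, t2 _ (mt (e2 i).1 hd), k6 i hd, e, k8]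
      linear_combination z * z' * X ^ 2 * k4 i
  · have e4 : ∀ i, (ε : ℂ) ^ k i = j ^ k (o i) := fun i => by
      rw [← mul_one (_ ^ _), ← k4 i, ← mul_assoc, ← mul_pow, e, neg_mul, ← sq, hj, neg_neg, one_pow,
        one_mul]
    rw [← k9 fun i => 1 - z' * θ i * X, ← Finset.prod_mul_distrib]
    refine Finset.prod_congr rfl fun i _ => ?_
    rw [Function.Involutive.coe_toPerm]
    split_ifs with hd
    · simp [t1 i hd, t1 _ ((e2 i).2 hd)]
    · rw [t2 i hd, t2 _ (mt (e2 i).1 hd), k6 i hd, e4, e4, oo i, k8]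
      linear_combination z * z' * X ^ 2 * k4 i

theorem isLN_gen {L : Type} [Field L] [Algebra L ℂ] {j : L} {V : Rep L (M ≃ₐ[ℚ] M)}
    {y : Fin 2 × Fin 2 → M} {N : Fin 2 × Fin 2 → ℤ} {o : Fin 2 × Fin 2 → Fin 2 × Fin 2}
    (hV : Quad V ι j y) (hι : ι ^ 2 = -1) (hj : j ^ 2 = -1) (hy : ∀ i, y i ^ 4 = N i)
    (hN : ∀ i, QA.Fam (N i)) (oo : Function.Involutive o)
    (ho : ∀ (i) (σ : M ≃ₐ[ℚ] M), σ (y i * y (o i)) = y i * y (o i)) {F : Fin 2 × Fin 2 → ℂ → ℂ}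
    (h : ∀ i, IsF (B * N i) (F i)) : IsLN (2 * B).natAbs (ab B) (bc ℂ V) (∏ i, F i) := by
  intro Q φ hQ s hs'
  obtain ⟨w, hw, -⟩ := hV
  let w' : Module.Basis (Fin 2 × Fin 2) ℂ (bc ℂ V) := w.baseChange ℂ
  have e5 : ∀ i, w' i = (1 : ℂ) ⊗ₜ[L] w i := fun i => w.baseChange_apply ℂ i
  rw [Finset.prod_apply, ab_eq]
  convert hasProd_prod (s := Finset.univ) fun i _ => (h i).2 s hs' using 2 with p
  by_cases hp : p.Prime
  · obtain ⟨q1, q2, q3⟩ := hQ p hp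
    rw [if_pos hp, eul_gen w' (j := algebraMap L ℂ j) (fun i σ k => ?_) hι
      (by rw [← map_pow, hj, map_neg, map_one]) hy hN oo ho hp q2 q3, ← Finset.prod_inv_distrib]
    · refine Finset.prod_congr rfl fun i _ => ?_
      have hP := Nat.prime_iff_prime_int.1 hp
      generalize B * N i = N
      have e : (p : ℤ) ∣ 2 * (-4 * (-N) ^ 3 - 27 * 0 ^ 2) ↔ (p : ℤ) ∣ 2 * N := by
        rw [show 2 * (-4 * (-N) ^ 3 - 27 * 0 ^ 2) = (2 * N) ^ 3 by ring,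
          hP.dvd_pow_iff_dvd three_ne_zero]
      simp only [lf, hp, true_and, e]
      split_ifs <;> simp
    · obtain ⟨k, e3, e4⟩ := hw i σ k
      refine ⟨k, e3, ?_⟩
      rw [e5, bc_tmul, e4, TensorProduct.tmul_smul, ← map_pow]
      exact (algebraMap_smul ℂ (j ^ k) ((1 : ℂ) ⊗ₜ[L] w i)).symm
  · simp [hp]

end Pool.Agent.Lib.MP_60ff09_nt.QB
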