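import Pool.Agent.Lib.MP_60ff09_nt.QB.Defs
import Pool.Agent.Lib.MP_696deb_nt.WG.O5a

/-! Valuations, root numbers and densities for the four quartic twists. -/

set_option autoImplicit false

open scoped Classical
open Finset Filter Topology
open Pool.Agent.Lib.MP_696deb_nt.QA (Fam W2 n2 Wq val_two)

namespace Pool.Agent.Lib.MP_60ff09_nt.QB

theorem ratio {C P : ℤ → Prop} (hl : ∃ c : ℝ, 0 < c ∧ ∃ X0 : ℕ, ∀ X ≥ X0,
      c * X ≤ (((Icc (-(X : ℤ)) X).filter C).card : ℝ))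
    (hb : ∀ ε : ℝ, 0 < ε → ∃ X0 : ℕ, ∀ X ≥ X0,
      (((Icc (-(X : ℤ)) X).filter fun D => C D ∧ ¬ P D).card : ℝ) ≤ ε * X) :
    Tendsto (fun X : ℕ => (Set.ncard {D : ℤ | |D| ≤ X ∧ C D ∧ P D} : ℝ) /
      (Set.ncard {D : ℤ | |D| ≤ X ∧ C D} : ℝ)) atTop (𝓝 1) := by
  rw [Metric.tendsto_nhds]
  intro ε hε
  obtain ⟨c, hc, X0, h0⟩ := hl
  obtain ⟨X1, h1⟩ := hb (ε / 2 * c) (by positivity)
  filter_upwards [eventually_ge_atTop X0, eventually_ge_atTop X1,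
    (tendsto_natCast_atTop_atTop (R := ℝ)).eventually_gt_atTop 0] with X a0 a1 a2
  have e1 : {D : ℤ | |D| ≤ X ∧ C D ∧ P D} = ↑(((Icc (-(X : ℤ)) X).filter C).filter P) := by
    ext d
    simp [abs_le, and_assoc]
  have e2 : {D : ℤ | |D| ≤ X ∧ C D} = ↑((Icc (-(X : ℤ)) X).filter C) := by
    ext d
    simp [abs_le, and_assoc]
  have k0 := h0 X a0
  have k1 := h1 X a1
  have k2 := congrArg (Nat.cast (R := ℝ))
    (card_filter_add_card_filter_not (s := (Icc (-(X : ℤ)) X).filter C) P)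
  rw [← filter_filter] at k1
  rw [e1, e2, Set.ncard_coe_finset, Set.ncard_coe_finset, Real.dist_eq]
  push_cast at k2
  generalize (((Icc (-(X : ℤ)) X).filter C).card : ℝ) = T at k0 k2
  have k3 : (0 : ℝ) ≤ ((((Icc (-(X : ℤ)) X).filter C).filter fun D => ¬ P D).card : ℝ) :=
    Nat.cast_nonneg _
  have T0 : 0 < T := (mul_pos hc a2).trans_le k0
  rw [div_sub_one T0.ne', abs_div, abs_of_pos T0, div_lt_iff₀ T0, abs_sub_comm,
    abs_of_nonneg (by linarith)]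
  nlinarith

variable {A B D : ℤ} {p : ℕ}

/-- The admissible parameters. -/
def Cop (B A D : ℤ) : Prop := Squarefree D ∧ IsCoprime D (A * B)

theorem Cop.sqf (h : Cop B A D) (hA : Squarefree A) : Squarefree (A * D) :=
  squarefree_mul_iff.2 ⟨h.2.of_mul_right_left.symm.isRelPrime, hA, h.1⟩

theorem val_one (hp : p.Prime) (h : Squarefree D) (k : (p : ℤ) ∣ D) : padicValInt p D = 1 := by
  rw [padicValInt, ← Nat.factorization_def _ hp]
  exact Nat.factorization_eq_one_of_squarefree (Int.squarefree_natAbs.2 h) hp (Int.natCast_dvd.1 k)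

theorem val_pw (hp : p.Prime) (hB : B ≠ 0) (hA : A ≠ 0) (hD : D ≠ 0) (i : Fin 2 × Fin 2) :
    padicValInt p (B * pw A D i) =
      padicValInt p B + (2 * i.1.1 + 1) * padicValInt p A + (2 * i.2.1 + 1) * padicValInt p D := by
  have := Fact.mk hp
  have k : ∀ (a : ℤ) (n : ℕ), padicValInt p (a ^ n) = n * padicValInt p a := fun a n => by
    rw [padicValInt, padicValInt, Int.natAbs_pow, padicValNat.pow]
  rw [pw, padicValInt.mul hB (mul_ne_zero (pow_ne_zero _ hA) (pow_ne_zero _ hD)),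
    padicValInt.mul (pow_ne_zero _ hA) (pow_ne_zero _ hD), k, k, add_assoc]

theorem ndvd {a b : ℤ} (hp : p.Prime) (h : IsCoprime a b) (k : (p : ℤ) ∣ a) : ¬ (p : ℤ) ∣ b :=
  fun l => (Nat.prime_iff_prime_int.1 hp).not_isUnit (h.isUnit_of_dvd' k l)

/-- The valuation of a twisting parameter is that of `B`, or it is odd. -/
theorem val_cases (hp : p.Prime) (hB : B ≠ 0) (hA : Squarefree A) (hc : IsCoprime A B)
    (h : Cop B A D) (i : Fin 2 × Fin 2) :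
    ¬ (p : ℤ) ∣ A * D ∧ padicValInt p (B * pw A D i) = padicValInt p B ∨
      (p : ℤ) ∣ A * D ∧ padicValInt p B = 0 ∧
        (padicValInt p (B * pw A D i) = 1 ∨ padicValInt p (B * pw A D i) = 3) := by
  have z := fun a => padicValInt.eq_zero_of_not_dvd (p := p) (z := a)
  have h1 := i.1.2
  have h2 := i.2.2
  rw [val_pw hp hB hA.ne_zero h.1.ne_zero]
  by_cases a : (p : ℤ) ∣ A
  · rw [val_one hp hA a, z B (ndvd hp hc a), z D (ndvd hp h.2.of_mul_right_left.symm a)]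
    exact .inr ⟨a.mul_right _, rfl, by omega⟩
  by_cases d : (p : ℤ) ∣ D
  · rw [val_one hp h.1 d, z B (ndvd hp h.2.of_mul_right_right d), z A a]
    exact .inr ⟨d.mul_left _, rfl, by omega⟩
  · rw [z A a, z D d]
    exact .inl ⟨fun k => ((Nat.prime_iff_prime_int.1 hp).dvd_or_dvd k).elim a d, rfl⟩

theorem N_ne (hB : B ≠ 0) (hA : A ≠ 0) (hD : D ≠ 0) (i : Fin 2 × Fin 2) : B * pw A D i ≠ 0 :=
  mul_ne_zero hB (mul_ne_zero (pow_ne_zero _ hA) (pow_ne_zero _ hD))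

theorem fam_pw (hB : Fam B) (hA : Squarefree A) (hc : IsCoprime A B) (h : Cop B A D)
    (i : Fin 2 × Fin 2) : Fam (B * pw A D i) := fun p hp k => by
  have := Fact.mk hp
  have k1 := hB p hp
  rw [padicValInt_dvd_iff, or_iff_right (N_ne hB.ne hA.ne_zero h.1.ne_zero i)] at k
  rw [padicValInt_dvd_iff, or_iff_right hB.ne] at k1
  have := val_cases hp hB.ne hA hc h i
  omega

theorem n2_pw (hB : B ≠ 0) (hA : Squarefree A) (hc : IsCoprime A B) (h : Cop B A D)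
    (i : Fin 2 × Fin 2) : n2 (B * pw A D i) = n2 B := by
  unfold n2
  congr 1
  ext p
  refine and_congr_right fun hp => and_congr_right fun _ => ?_
  rw [← val_two hB hp, ← val_two (N_ne hB hA.ne_zero h.1.ne_zero i) hp]
  have := val_cases hp hB hA hc h i
  omega

theorem w2_cls (B : ℤ) : ∃ (t : ℤ) (w : Prop), Odd t ∧ ∀ u : ℤ, 8 ∣ u - t → (W2 (B * u) ↔ w) := by
  have k : ∀ b : ℤ, b % 2 = 1 → ∀ u, 8 ∣ u - b → ∃ l, b * u = 8 * l + 1 := fun b hb u ⟨c, hc⟩ => by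
    obtain ⟨e, he⟩ := Int.eight_dvd_sq_sub_one_of_odd (Int.odd_iff.2 hb)
    exact ⟨e + b * c, by linear_combination he + b * hc⟩
  obtain ⟨b, hb, h⟩ : ∃ b : ℤ, b % 2 = 1 ∧ (B = b ∨ B = 2 * b ∨ B = 4 * b ∨ B = 8 * b ∨ 16 ∣ B) := by
    rcases (by omega : B % 2 = 1 ∨ B % 4 = 2 ∨ B % 8 = 4 ∨ B % 16 = 8 ∨ 16 ∣ B) with
      h | h | h | h | h
    exacts [⟨B, h, by omega⟩, ⟨B / 2, by omega, by omega⟩, ⟨B / 4, by omega, by omega⟩,
      ⟨B / 8, by omega, by omega⟩, ⟨1, rfl, by omega⟩]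
  rcases h with rfl | rfl | rfl | rfl | ⟨c, rfl⟩
  · refine ⟨3 * B, True, Int.odd_iff.2 (by omega), fun u hu => iff_true_intro ?_⟩
    obtain ⟨l, hl⟩ := k B hb (u - 2 * B) (by omega)
    obtain ⟨e, he⟩ := k B hb B (by omega)
    rw [show B * u = 8 * (l + 2 * e) + 3 by linear_combination hl + 2 * he, W2]
    omega
  all_goals obtain o := Int.odd_iff.2 hb
  · refine ⟨b, False, o, fun u hu => iff_false_intro ?_⟩
    obtain ⟨l, hl⟩ := k b hb u hu
    rw [mul_assoc, hl, W2]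
    omega
  · refine ⟨b, True, o, fun u hu => iff_true_intro ?_⟩
    obtain ⟨l, hl⟩ := k b hb u hu
    rw [mul_assoc, hl, W2]
    omega
  · refine ⟨b, True, o, fun u hu => iff_true_intro ?_⟩
    obtain ⟨l, hl⟩ := k b hb u hu
    rw [mul_assoc, hl, W2]
    omega
  · refine ⟨b, False, o, fun u _ => iff_false_intro ?_⟩
    rw [mul_assoc, W2]
    omega

theorem pw_mod (hA : Odd A) (hD : Odd D) (i : Fin 2 × Fin 2) : 8 ∣ pw A D i - A * D := by
  have k : ∀ {a : ℤ} (n : ℕ), Odd a → a ^ (2 * n + 1) ≡ a [ZMOD 8] := fun {a} n ha => by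
    have e : a ^ 2 ≡ 1 [ZMOD 8] := (Int.modEq_iff_dvd.2 (Int.eight_dvd_sq_sub_one_of_odd ha)).symm
    simpa [pow_succ, pow_mul] using (e.pow n).mul_right a
  exact ((k _ hA).mul (k _ hD)).symm.dvd

theorem pw_pos (hA : A ≠ 0) (hD : D ≠ 0) (i : Fin 2 × Fin 2) :
    0 < B * pw A D i ↔ 0 < B * A * D := by
  rw [show B * pw A D i = B * A * D * (A ^ i.1.1 * D ^ i.2.1) ^ 2 by rw [pw]; ring]
  exact mul_pos_iff_of_pos_right (by positivity)

theorem minus_zero : minus B A D = 0 ↔ ∀ i, Wq (B * pw A D i) := by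
  rw [minus, Set.ncard_eq_zero, Set.eq_empty_iff_forall_notMem]
  simp

/-- Multiples of a fixed parameter by integers that are one modulo a suitable number. -/
theorem dens_of {C : ℤ → Prop} (hB : B ≠ 0) (hA : A ≠ 0) {D0 : ℤ} (h0 : Cop B A D0)
    (h : ∀ d : ℤ, 0 < d → 8 ∣ d - 1 → Cop B A (D0 * d) → C (D0 * d)) :
    ∃ c : ℝ, 0 < c ∧ ∃ X0 : ℕ, ∀ X ≥ X0, c * X ≤ (((Icc (-(X : ℤ)) X).filter C).card : ℝ) := by
  have d0 := h0.1.ne_zero
  obtain ⟨c, hc, X0, h1⟩ := B6.WG.sqf_dens' (M := (8 * (D0 * (A * B))).natAbs) (by simp [*])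
  obtain ⟨n, hn⟩ : ∃ n, n = D0.natAbs := ⟨_, rfl⟩
  have n0 : 0 < n := hn ▸ Int.natAbs_pos.2 d0
  have n1 : (1 : ℝ) ≤ n := by exact_mod_cast n0
  refine ⟨c / (2 * n), by positivity, n * (X0 + 1), fun X hX => ?_⟩
  have k0 : X0 + 1 ≤ X / n := (Nat.le_div_iff_mul_le n0).2 (by rwa [mul_comm])
  have k1 : (X : ℝ) ≤ 2 * n * (X / n : ℕ) := by
    have := Nat.lt_mul_div_succ X n0
    exact_mod_cast (by nlinarith : X ≤ 2 * n * (X / n))
  refine le_trans ?_ ((h1 (X / n) (by omega)).trans (Nat.cast_le.2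
    (card_le_card_of_injOn (D0 * ·) (fun d hd => ?_) fun _ _ _ _ => mul_left_cancel₀ d0)))
  · rw [div_mul_eq_mul_div, div_le_iff₀ (by positivity)]
    nlinarith
  simp only [coe_filter, mem_Icc, Set.mem_ofPred_eq, Int.natCast_natAbs, abs_dvd] at hd ⊢
  obtain ⟨⟨a1, a2⟩, a3, u, a4⟩ := hd
  have k2 : IsCoprime d (D0 * (A * B)) := ⟨1, -8 * u, by linear_combination a4⟩
  refine ⟨abs_le.1 ?_, h d (by omega) ⟨_, a4.trans (mul_assoc _ _ _)⟩ ⟨squarefree_mul_iff.2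
    ⟨k2.of_mul_right_left.symm.isRelPrime, h0.1, a3⟩, h0.2.mul_left k2.of_mul_right_right⟩⟩
  rw [abs_mul, abs_of_nonneg (by omega : 0 ≤ d), ← Int.natCast_natAbs, ← hn]
  refine (mul_le_mul_of_nonneg_left a2 (by positivity)).trans ?_
  exact_mod_cast Nat.mul_div_le X n

theorem dens_cop (hB : B ≠ 0) (hA : A ≠ 0) : ∃ c : ℝ, 0 < c ∧ ∃ X0 : ℕ, ∀ X ≥ X0,
    c * X ≤ (((Icc (-(X : ℤ)) X).filter (Cop B A)).card : ℝ) :=
  dens_of hB hA (D0 := 1) ⟨squarefree_one, isCoprime_one_left⟩ fun _ _ _ h => h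

theorem dens_plus (hB : B ≠ 0) (hA : Squarefree A) (h2 : Odd A) (hc : IsCoprime A B) :
    ∃ c : ℝ, 0 < c ∧ ∃ X0 : ℕ, ∀ X ≥ X0,
      c * X ≤ (((Icc (-(X : ℤ)) X).filter fun D => Cop B A D ∧ minus B A D = 0).card : ℝ) := by
  obtain ⟨t, w, t1, t2⟩ := w2_cls B
  have a0 := mul_ne_zero hB hA.ne_zero
  obtain ⟨s, s1, s2⟩ : ∃ s : ℤ, (s = 1 ∨ s = -1) ∧ (0 < B * A * s ↔ (w ↔ Even (n2 B))) := by
    by_cases k : 0 < B * A ↔ (w ↔ Even (n2 B))
    · exact ⟨1, .inl rfl, by rwa [mul_one]⟩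
    · exact ⟨-1, .inr rfl, by rwa [show 0 < B * A * -1 ↔ ¬ 0 < B * A by omega, ← not_iff]⟩
  have s3 : Odd s := by rcases s1 with rfl | rfl <;> decide
  have o := (s3.mul h2).mul t1
  obtain ⟨q, q1, q2, q3⟩ := Nat.forall_exists_prime_gt_and_zmodEq (A * B).natAbs (q := 2 ^ 3)
    (a := s * A * t) (by norm_num) (by
      rw [Nat.cast_pow]
      exact (Int.isCoprime_two_right.2 o).pow_right)
  have q4 : (8 : ℤ) ∣ s * A * t - q := q3.dvd
  have q5 : IsCoprime (q : ℤ) (A * B) :=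
    (Nat.prime_iff_prime_int.1 q2).irreducible.coprime_iff_not_dvd.2 fun k => (Nat.le_of_dvd
      (Int.natAbs_pos.2 (mul_comm B A ▸ a0)) (Int.natCast_dvd.1 k)).not_gt q1
  have u : IsUnit s := by rcases s1 with rfl | rfl <;> simp
  convert dens_of (C := fun D => Cop B A D ∧ minus B A D = 0) hB hA.ne_zero (D0 := s * q)
    ⟨squarefree_mul_iff.2 ⟨u.isRelPrime_left, u.squarefree,
      (Nat.prime_iff_prime_int.1 q2).squarefree⟩, (isCoprime_mul_unit_left_left u _ _).2 q5⟩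
    fun d d0 d1 h => ⟨h, minus_zero.2 fun i => ?_⟩
  have o1 : Odd (s * q * d) := by
    refine (s3.mul ?_).mul ?_ <;> rw [Int.odd_iff] at * <;> omega
  have e : 8 ∣ A * (s * q * d) - t := by
    obtain ⟨a, ha⟩ := q4
    obtain ⟨b, hb⟩ := d1
    obtain ⟨c, hc⟩ := Int.eight_dvd_sq_sub_one_of_odd h2
    have s4 : s ^ 2 = 1 := by rcases s1 with rfl | rfl <;> rfl
    exact ⟨A * s * q * b - A * s * a + t * c, by
      linear_combination A * s * q * hb - A * s * ha + t * hc + A ^ 2 * t * s4⟩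
  rw [Wq, n2_pw hB hA hc h, pw_pos hA.ne_zero h.1.ne_zero,
    t2 _ (by simpa using dvd_add (pw_mod h2 o1 i) e), ← s2,
    show B * A * (s * q * d) = B * A * s * (q * d) by ring]
  exact mul_pos_iff_of_pos_right (mul_pos (Int.natCast_pos.2 q2.pos) d0)

end Pool.Agent.Lib.MP_60ff09_nt.QB
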