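import Pool.Agent.Lib.MP_60ff09_nt.V6Defs
import Pool.Agent.Lib.MP_696deb_nt.QA.D0

/-! Representations induced from quartic Kummer characters of the Gaussian field. -/

set_option autoImplicit false

open NumberField CategoryTheory MonoidalCategory

namespace Pool.Agent.Lib.MP_60ff09_nt.QB

/-- The representation `V` is induced from the character of the subgroup fixing `ι` that sends `σ`
to `j ^ k` when `σ y = ι ^ k y`. -/
def Theta {M L : Type} [Field M] [NumberField M] [Field L] (V : Rep L (M ≃ₐ[ℚ] M)) (ι y : M)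
    (j : L) : Prop :=
  ∃ v : Module.Basis (Fin 2) L V,
    (∀ (σ : M ≃ₐ[ℚ] M) (k : ℕ), σ ι = ι → σ y = ι ^ k * y → V.ρ σ (v 0) = j ^ k • v 0) ∧
    ∃ τ : M ≃ₐ[ℚ] M, τ ι = -ι ∧ V.ρ τ (v 0) = v 1

/-- The products of first and third powers. -/
def pw {R : Type} [Monoid R] (a b : R) (i : Fin 2 × Fin 2) : R :=
  a ^ (2 * i.1.1 + 1) * b ^ (2 * i.2.1 + 1)

/-- The number of the four curves `y ^ 2 = x ^ 3 - B A ^ a D ^ b x` with `a` and `b` equal to one or
three whose root number is minus one. -/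
noncomputable def minus (B A D : ℤ) : ℕ :=
  Set.ncard {i : Fin 2 × Fin 2 | ¬ MP_696deb_nt.QA.Wq (B * pw A D i)}

/-- The curve `y ^ 2 = x ^ 3 - B x`. -/
def Eb (B : ℤ) : WeierstrassCurve ℚ := { a₁ := 0, a₂ := 0, a₃ := 0, a₄ := -B, a₆ := 0 }

/-- The coefficients at primes of the newform of this curve. -/
noncomputable def ab (B : ℤ) (p : ℕ) : ℤ :=
  p - Nat.card {q : ZMod p × ZMod p // q.2 ^ 2 = q.1 ^ 3 - B * q.1}

/-- The conjecture holds, both sides being `r`, for the newform attached to the curve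
`y ^ 2 = x ^ 3 - B x` and the two representations induced from the quartic characters of the
Gaussian field given by the fourth roots of `A` and of `D`. -/
def HoldsQ (B A D : ℤ) (r : ℕ) : Prop :=
  ∀ (M L : Type) [Field M] [NumberField M] [IsGalois ℚ M] [Field L] [Algebra L ℂ] (ι α β δ : M)
    (j : L) (Vg Vh : Rep L (M ≃ₐ[ℚ] M)), ι ^ 2 = -1 → α ^ 4 = A → β ^ 4 = B → δ ^ 4 = D →
    j ^ 2 = -1 → Theta Vg ι α j → Theta Vh ι δ j →
    V6.BeilN (Eb B) (2 * B).natAbs (ab B) (Vg ⊗ Vh) r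

/-- The number `m` lies between the two sides of the conjecture. -/
def BeilLe {M L : Type} [Field M] [NumberField M] [IsGalois ℚ M] [Field L] [Algebra L ℂ]
    (W : WeierstrassCurve ℚ) (N : ℕ) (a : ℕ → ℤ) (V : Rep L (M ≃ₐ[ℚ] M)) (m : ℕ) : Prop :=
  ∃ F : ℂ → ℂ, Differentiable ℂ F ∧ V6.IsLN N a (V4.bc ℂ V) F ∧ Module.Finite L (V6.HomW W V) ∧
    Module.finrank L (V6.HomW W V) ≤ m ∧ (m : ℕ∞) ≤ analyticOrderAt F 1

/-- The same inequalities for the triples above. -/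
def BoundQ (B A D : ℤ) (m : ℕ) : Prop :=
  ∀ (M L : Type) [Field M] [NumberField M] [IsGalois ℚ M] [Field L] [Algebra L ℂ] (ι α β δ : M)
    (j : L) (Vg Vh : Rep L (M ≃ₐ[ℚ] M)), ι ^ 2 = -1 → α ^ 4 = A → β ^ 4 = B → δ ^ 4 = D →
    j ^ 2 = -1 → Theta Vg ι α j → Theta Vh ι δ j →
    BeilLe (Eb B) (2 * B).natAbs (ab B) (Vg ⊗ Vh) m

end Pool.Agent.Lib.MP_60ff09_nt.QB
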