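import Pool.Agent.Lib.MP_60ff09_nt.QB.Quad

/-! The dimension of the space of equivariant maps is the sum of the four ranks. -/

set_option autoImplicit false

open scoped Classical TensorProduct
open CategoryTheory MonoidalCategory
open Pool.Agent.Lib.MP_696deb_nt Pool.Agent.Lib.MP_696deb_nt.Q4
open Pool.Agent.Lib.MP_696deb_nt.B2.Stmt (Pts pm)

namespace Pool.Agent.Lib.MP_60ff09_nt.QB

open V4 V6

variable {M L : Type} [Field M] [NumberField M] [Field L] [CharZero L] {ι β y : M} {j : L}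
  {B N : ℤ}

theorem avg_range (hN : N ≠ 0) (hy : y ^ 4 = N) (K : Subgroup (M ≃ₐ[ℚ] M)) {A : Type}
    [AddCommGroup A] (Φ : A →+ P1 M)
    (hΦ : ∀ P : P1 M, (∀ σ ∈ K, vm (σ : M →+* M) (σ y / y) P = P) → ∃ R, Φ R = P)
    {x : L ⊗[ℤ] P1 M} (h : ∀ σ ∈ K, TL L σ (σ y / y) x = x) :
    x ∈ LinearMap.range (Φ.toIntLinearMap.baseChange L) := by
  have := Fintype.ofFinite K
  have k : ∀ z, (∑ σ : K, TL L σ.1 (σ.1 y / y)) z ∈
      LinearMap.range (Φ.toIntLinearMap.baseChange L) := fun z => by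
    induction z using TensorProduct.induction_on with
    | zero => simp
    | add x y hx hy =>
      rw [map_add]
      exact add_mem hx hy
    | tmul l P =>
      obtain ⟨R, hR⟩ := hΦ (∑ σ : K, vm (σ.1 : M →+* M) (σ.1 y / y) P) fun σ hσ => by
        rw [map_sum, ← Equiv.sum_comp (Equiv.mulLeft (⟨σ, hσ⟩ : K))
          fun σ : K => vm (σ.1 : M →+* M) (σ.1 y / y) P]
        exact Finset.sum_congr rfl fun τ _ => tw_mul hN hy σ τ P
      refine ⟨l ⊗ₜ R, ?_⟩
      rw [LinearMap.sum_apply]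
      change l ⊗ₜ Φ R = _
      rw [hR, TensorProduct.tmul_sum]
      rfl
  have k1 := k x
  rw [LinearMap.sum_apply, Finset.sum_congr rfl fun σ _ => h σ.1 σ.2, Finset.sum_const,
    ← Nat.cast_smul_eq_nsmul L] at k1
  exact (Submodule.smul_mem_iff _ (Nat.cast_ne_zero.2 Finset.univ_nonempty.card_ne_zero)).1 k1

theorem exists_emb' (L : Type) [Field L] [CharZero L] (hB : B ≠ 0) (hβ : β ^ 4 = B) {H : Type}
    [Field H] [NumberField H] (f : H →ₐ[ℚ] M) (K : Subgroup (M ≃ₐ[ℚ] M))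
    (hK : ∀ x : M, (∀ σ ∈ K, σ x = x) → ∃ x', f x' = x) :
    ∃ E : bc L (pts (ED B) H) →ₗ[L] L ⊗[ℤ] P1 M,
      Function.Injective E ∧ (∀ (σ : M ≃ₐ[ℚ] M) (σ' : H ≃ₐ[ℚ] H), (∀ x, f (σ' x) = σ (f x)) →
        ∀ x, E ((bc L (pts (ED B) H)).ρ σ' x) = TL L (σ : M →+* M) (σ β / β) (E x)) ∧
      ∀ x, (∀ σ ∈ K, TL L σ (σ β / β) x = x) → ∃ x', E x' = x := by
  let Φ : Pts (ED B) H →+ P1 M := (linkPsi hB hβ).toAddMonoidHom.comp
    (WeierstrassCurve.Affine.Point.map (W' := (ED B).toAffine) f)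
  let E : bc L (pts (ED B) H) →ₗ[L] L ⊗[ℤ] P1 M := Φ.toIntLinearMap.baseChange L
  refine ⟨E, Module.Flat.lTensor_preserves_injective_linearMap _ ((linkPsi hB hβ).injective.comp
    (WeierstrassCurve.Affine.Point.map_injective _)), fun σ σ' h x => ?_,
    fun x hx => avg_range hB hβ K Φ (fun P hP => ?_) hx⟩
  · refine TensorProduct.induction_on (motive := fun x => x ∈ LinearMap.eqLocus
      (E ∘ₗ (bc L (pts (ED B) H)).ρ σ') (TL L (σ : M →+* M) (σ β / β) ∘ₗ E)) x (zero_mem _)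
        (fun l P => ?_) fun _ _ => add_mem
    refine congrArg (l ⊗ₜ[ℤ] ·) (Eq.trans (congrArg (linkPsi hB hβ) ?_)
      (link_pm hB hβ hβ (σ : M →+* M) _))
    rcases P with _ | ⟨x, y, k⟩
    · rfl
    · exact WeierstrassCurve.Affine.Point.some.congr_simp _ _ (h x) _ _ (h y) _
  · obtain ⟨S, rfl⟩ := (linkPsi hB hβ).surjective P
    have k : ∀ σ ∈ K, pm (ED B) (σ : M →+* M) S = S := fun σ hσ =>
      (linkPsi hB hβ).injective ((link_pm hB hβ hβ (σ : M →+* M) S).trans (hP σ hσ))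
    rcases S with _ | ⟨x, y, n⟩
    · exact ⟨0, rfl⟩
    have e : ∀ σ ∈ K, σ x = x ∧ σ y = y := fun σ hσ =>
      WeierstrassCurve.Affine.Point.some.inj (k σ hσ)
    obtain ⟨x', rfl⟩ := hK x fun σ hσ => (e σ hσ).1
    obtain ⟨y', rfl⟩ := hK y fun σ hσ => (e σ hσ).2
    exact ⟨.some x' y' (((ED B).toAffine.baseChange_nonsingular f.injective x' y').1 n), rfl⟩

variable [IsGalois ℚ M]

theorem exists_lin' (hB : B ≠ 0) (hβ : β ^ 4 = B) (V : Rep L (M ≃ₐ[ℚ] M)) :
    ∃ X : HomW (ED B) V →ₗ[L] V →ₗ[L] L ⊗[ℤ] P1 M, ∀ T : V →ₗ[L] L ⊗[ℤ] P1 M,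
      (∀ (σ : M ≃ₐ[ℚ] M) x, T (V.ρ σ x) = TL L (σ : M →+* M) (σ β / β) (T x)) → ∃ φ, X φ = T := by
  obtain ⟨E, inj, hE, sur⟩ := exists_emb' L hB hβ (IntermediateField.fixedField V.ρ.ker).val
    V.ρ.ker fun x hx => ⟨⟨x, fun σ => hx σ σ.2⟩, rfl⟩
  refine ⟨{ toFun := fun φ => E ∘ₗ φ.hom.toLinearMap
            map_add' := fun φ ψ => LinearMap.ext fun x => map_add E (φ.hom x) (ψ.hom x)
            map_smul' := fun c φ => LinearMap.ext fun x => map_smul E c (φ.hom x) },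
    fun T hT => ?_⟩
  choose g hg using fun v => sur (T v) fun σ hσ => by
    rw [← hT, show V.ρ σ = 1 from hσ, Module.End.one_apply]
  let G : V →ₗ[L] bc L (pts (ED B) (IntermediateField.fixedField V.ρ.ker)) :=
    { toFun := g
      map_add' := fun x y => inj (by rw [map_add, hg, hg, hg, map_add])
      map_smul' := fun c x => inj (by rw [map_smul, hg, hg, map_smul, RingHom.id_apply]) }
  refine ⟨Rep.ofHom ⟨G, fun σ => LinearMap.ext fun x => inj ?_⟩, LinearMap.ext hg⟩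
  exact ((hg _).trans ((hT σ x).trans (congrArg _ (hg x).symm))).trans
    (hE σ (AlgEquiv.restrictNormalHom _ σ) (fun x => σ.restrictNormal_commutes _ x) _).symm

omit [IsGalois ℚ M] [CharZero L] in
theorem rat_fix (hN : N ≠ 0) (hy : y ^ 4 = N) (σ : M ≃ₐ[ℚ] M)
    (x : L ⊗[ℤ] (ED N).toAffine.Point) : TL L σ (σ y / y) (rat L hN hy x) = rat L hN hy x := by
  induction x using TensorProduct.induction_on with
  | zero => simp
  | add x y hx hy => rw [map_add, map_add, hx, hy]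
  | tmul l R =>
    refine congrArg (l ⊗ₜ[ℤ] ·) ((link_pm hN hy hy (σ : M →+* M) _).symm.trans
      (congrArg (linkPsi hN hy) ?_))
    rcases R with _ | ⟨x, y, k⟩
    · rfl
    · exact WeierstrassCurve.Affine.Point.some.congr_simp _ _ (by simp) _ _ (by simp) _

omit [IsGalois ℚ M] in
theorem rat_inj (hN : N ≠ 0) (hy : y ^ 4 = N) : Function.Injective (rat L hN hy) :=
  Module.Flat.lTensor_preserves_injective_linearMap _
    ((linkPsi hN hy).injective.comp (vc_rat N).hom_injective)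

theorem hom_ge {V : Rep L (M ≃ₐ[ℚ] M)} {y : Fin 2 × Fin 2 → M} {N : Fin 2 × Fin 2 → ℤ}
    (h : Quad V ι j y) (hι : ι ^ 2 = -1) (hj : j ^ 2 = -1) (hB : B ≠ 0) (hβ : β ^ 4 = B)
    (hy : ∀ i, y i ^ 4 = N i) (hN : ∀ i, N i ≠ 0)
    (hf : ∀ i, Module.Finite ℤ (ED (B * N i)).toAffine.Point)
    (hfin : Module.Finite L (HomW (ED B) V)) :
    ∑ i, Module.finrank ℤ (ED (B * N i)).toAffine.Point ≤ Module.finrank L (HomW (ED B) V) := by
  obtain ⟨w, h1, τ, h2, -⟩ := h
  obtain ⟨X, sur⟩ := exists_lin' hB hβ V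
  generalize HomW (ED B) V = W at X sur hfin
  have n0 : ∀ i, B * N i ≠ 0 := fun i => mul_ne_zero hB (hN i)
  have hY : ∀ i, (β * y i) ^ 4 = (B * N i : ℤ) := fun i => by rw [mul_pow, hβ, hy, Int.cast_mul]
  have hc : (-j) ^ 2 = -1 := by rwa [neg_sq]
  have h4 := pow_four hι
  let p : L ⊗[ℤ] P1 M →ₗ[L] L ⊗[ℤ] P1 M := TL L (RingHom.id M) ι + (-j) • LinearMap.id
  have hp : ∀ x, p x = TL L (RingHom.id M) ι x + (-j) • x := fun _ => rfl
  let Ψ : W →ₗ[L] Fin 2 × Fin 2 → L ⊗[ℤ] P1 M := LinearMap.pi fun i =>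
    (LinearMap.id + TL L τ (τ (β * y i) / (β * y i))) ∘ₗ p ∘ₗ LinearMap.applyₗ (w i) ∘ₗ X
  let R : (∀ i, L ⊗[ℤ] (ED (B * N i)).toAffine.Point) →ₗ[L] Fin 2 × Fin 2 → L ⊗[ℤ] P1 M :=
    LinearMap.piMap fun i => rat L (n0 i) (hY i)
  have inj : Function.Injective R := fun a b e => funext fun i =>
    rat_inj (n0 i) (hY i) (congrFun e i)
  have key : ∀ (i) (x : L ⊗[ℤ] P1 M), (∀ σ : M ≃ₐ[ℚ] M, TL L σ (σ (β * y i) / (β * y i)) x = x) →
      Pi.single i x ∈ LinearMap.range Ψ := fun i x hx => by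
    have z1 : TL L (RingHom.id M) ι (p x) = (-j) • p x := part_eig hι hc x
    have z2 : ∀ σ : M ≃ₐ[ℚ] M, σ ι = ι → ∀ k : ℕ, σ (y i) = ι ^ k * y i →
        TL L σ (σ β / β) (p x) = j ^ k • p x := fun σ hσ k e => by
      have e1 := part_fix (b := 1) (k := 0) hι hc (f := σ) hσ (tw_four (n0 i) (hY i) σ)
        ((hx σ).trans (one_smul _ _).symm) (by simp)
      have e2 := TL_comp (L := L) (f := RingHom.id M) (f' := σ) (u := ι ^ k)
        (by rw [← pow_mul, mul_comm, pow_mul, h4, one_pow]) (tw_four hB hβ σ) (p x)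
      rw [pow_zero, one_mul, map_mul, e, mul_div_mul_comm,
        mul_div_cancel_right₀ _ (link_ne (hN i) (hy i)), ← hp] at e1
      rw [TL_pow hι z1, map_smul, map_pow, RingHom.coe_coe, hσ, RingHom.comp_id, e1] at e2
      rw [← e2, smul_smul, ← mul_pow, mul_neg, ← sq, hj, neg_neg, one_pow, one_smul, e2]
    let S : (M ≃ₐ[ℚ] M) → V →ₗ[L] L ⊗[ℤ] P1 M := fun σ =>
      TL L σ (σ β / β) ∘ₗ (w.coord i).smulRight (p x) ∘ₗ V.ρ σ⁻¹
    obtain ⟨φ, hφ⟩ := sur (∑ σ, S σ) fun σ v => by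
      rw [LinearMap.sum_apply, LinearMap.sum_apply, map_sum,
        ← Equiv.sum_comp (Equiv.mulLeft σ) fun s => S s (V.ρ σ v)]
      refine Finset.sum_congr rfl fun s _ => ?_
      simp only [S, LinearMap.comp_apply, TL_mul hB hβ, Equiv.coe_mulLeft]
      rw [← Module.End.mul_apply, ← map_mul, mul_inv_rev, inv_mul_cancel_right]
    have k1 : ∀ σ i', p (S σ (w i')) = if σ ι = ι then Pi.single (M := fun _ => _) i (p (p x)) i'
        else 0 := fun σ i' => by
      rcases pm_of_sq (d := -1) (by exact_mod_cast hι) σ with k | k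
      · have k' : σ⁻¹ ι = ι := by rw [← k, ← AlgEquiv.mul_apply, inv_mul_cancel, k]; rfl
        obtain ⟨n, e1, e2⟩ := h1 i' σ⁻¹ k'
        simp only [S, LinearMap.comp_apply, e2, map_smul, LinearMap.smulRight_apply, if_pos k,
          Module.Basis.coord_apply, Module.Basis.repr_self]
        by_cases e : i' = i
        · subst e
          rw [Finsupp.single_eq_same, one_smul, ← map_smul, ← map_smul, ← z2 _ k' n e1,
            TL_mul hB hβ, mul_inv_cancel, AlgEquiv.one_apply, div_self (link_ne hB hβ),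
            Pi.single_eq_same]
          exact congrArg p (TL_one _)
        · simp [e, Ne.symm e]
      · rw [if_neg fun l => link_ne one_ne_zero (ρ := ι) (by exact_mod_cast h4)
          (by linear_combination (l.symm.trans k) / 2)]
        simp only [S, LinearMap.comp_apply, map_smul, LinearMap.smulRight_apply]
        rw [hp, TL_anti hι (tw_four hB hβ σ) k, z1, map_smul, neg_add_cancel, smul_zero]
    obtain ⟨n, n1, n2⟩ : ∃ n : ℕ, n ≠ 0 ∧ ∀ z : L ⊗[ℤ] P1 M,
        ∑ σ : M ≃ₐ[ℚ] M, (if σ ι = ι then z else 0) = (n : L) • z :=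
      ⟨(Finset.univ.filter fun σ : M ≃ₐ[ℚ] M => σ ι = ι).card,
        Finset.card_ne_zero.2 ⟨1, by simp⟩, fun z => by
          rw [← Finset.sum_filter, Finset.sum_const, Nat.cast_smul_eq_nsmul]⟩
    refine (Submodule.smul_mem_iff _ (show (-4 * n : L) ≠ 0 by simpa using n1)).1
      ⟨φ, funext fun i' => ?_⟩
    simp only [Ψ, LinearMap.pi_apply, LinearMap.comp_apply, LinearMap.applyₗ_apply_apply, hφ,
      LinearMap.sum_apply, map_sum p, k1, n2, Pi.smul_apply]
    by_cases e : i' = i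
    · subst e
      have e1 : p (p x) = (-2 * j) • p x := by
        rw [hp (p x), z1]
        module
      have e2 : TL L τ (τ (β * y i') / (β * y i')) (p x) = -TL L (RingHom.id M) ι x + (-j) • x := by
        rw [hp, map_add, map_smul, hx, ← neg_eq_iff_eq_neg.2
          (TL_anti hι (tw_four (n0 i') (hY i') τ) h2 x), hx]
      rw [Pi.single_eq_same, Pi.single_eq_same, e1, map_smul, map_smul, LinearMap.add_apply, e2,
        LinearMap.id_apply, hp, show (-4 * n : L) = n * (4 * j ^ 2) by rw [hj]; ring]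
      module
    · simp [e]
  have sub : LinearMap.range R ≤ LinearMap.range Ψ := by
    rintro _ ⟨a, rfl⟩
    rw [← Finset.univ_sum_single (R a)]
    exact sum_mem fun i _ => key i _ fun σ => rat_fix (n0 i) (hY i) σ (a i)
  refine le_trans (le_of_eq ?_) ((Submodule.finrank_mono sub).trans (LinearMap.finrank_range_le Ψ))
  rw [LinearMap.finrank_range_of_inj inj, Module.finrank_pi_fintype]
  exact Finset.sum_congr rfl fun i _ => (TensorProduct.isBaseChange ℤ _ L).finrank_eq.symm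

end Pool.Agent.Lib.MP_60ff09_nt.QB
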