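import Pool.Agent.Lib.MP_60ff09_nt.QB.Top
import Pool.Agent.Lib.MP_60ff09_nt.QB.HomEq
import Pool.Agent.Lib.MP_696deb_nt.QK.One

/-! The density statement with equality of both sides. -/

set_option autoImplicit false

open scoped Classical
open Finset Filter Topology
open Pool.Agent.Lib.MP_696deb_nt Pool.Agent.Lib.MP_696deb_nt.Q4
open Pool.Agent.Lib.MP_696deb_nt.QA (Fam Wq)
open Pool.Agent.Lib.MP_696deb_nt.QK (Pair)

namespace Pool.Agent.Lib.MP_60ff09_nt.QB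

variable {A B D : ℤ}

theorem holds_eq (hB : B ≠ 0) (hs : Squarefree (A * D)) {r : Fin 2 × Fin 2 → ℕ}
    (h : ∀ i, QK.GoodF (r i) (B * pw A D i)) : HoldsQ B A D (∑ i, r i) := by
  intro M L _ _ _ _ _ ι α β δ j Vg Vh hι hα hβ hδ hj hg hh
  have : CharZero L := (algebraMap L ℂ).charZero
  choose F h1 h2 h3 h4 h5 h6 using fun i => (h i).2 _ _ rfl rfl _ rfl
  have hV := quad_tensor hι hα hδ hg hh
  obtain ⟨k1, k2⟩ := hom_le hV hι hj hB hβ (pw_four hα hδ) (pw_ne hs) h4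
  have k3 := k2.antisymm (hom_ge hV hι hj hB hβ (pw_four hα hδ) (pw_ne hs) h4 k1)
  rw [Eb_eq]
  refine ⟨∏ i, F i, Differentiable.finsetProd fun i _ => h1 i,
    isLN hV hι hj hα hδ hs fun i => ⟨h1 i, h2 i⟩, k1, ?_, k3.trans (sum_congr rfl fun i _ => h5 i)⟩
  rw [order_prod _ h1, k3, Nat.cast_sum]
  exact sum_congr rfl fun i _ => h6 i

theorem few_pair (hB : Fam B) (hA : Squarefree A) (hc : IsCoprime A B) {ε : ℝ} (hε : 0 < ε) :
    ∃ X0 : ℕ, ∀ X ≥ X0, (((Icc (-(X : ℤ)) X).filter fun D => Cop B A D ∧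
      ¬ ∀ i, Pair (B * pw A D i)).card : ℝ) ≤ ε * X := by
  choose! X0 h using fun (t : ℤ) (i : Fin 2 × Fin 2) (ht : Cop B A t) =>
    QK.pair_few (fam_pw hB hA hc ht i) (κ := i.2.1) (Nat.le_of_lt_succ i.2.2) (ε := ε / 8)
      (by positivity)
  refine ⟨univ.sup fun i => max (X0 1 i) (X0 5 i), fun X hX => ?_⟩
  let S : ℤ × Fin 2 × Fin 2 → Finset ℤ := fun u => ((Icc (-(X : ℤ)) X).filter fun D =>
    (Squarefree D ∧ IsCoprime D (5 * (B * pw A u.1 u.2))) ∧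
      ¬ Pair (B * pw A u.1 u.2 * D ^ (2 * u.2.2.1 + 1))).image (u.1 * ·)
  let T : Finset (ℤ × Fin 2 × Fin 2) := (({1, 5} : Finset ℤ) ×ˢ univ).filter fun u => Cop B A u.1
  have p5 : Prime (5 : ℤ) := Nat.prime_iff_prime_int.1 Nat.prime_five
  have k1 : ((Icc (-(X : ℤ)) X).filter fun D => Cop B A D ∧ ¬ ∀ i, Pair (B * pw A D i)) ⊆
      T.biUnion S := fun D hD => by
    obtain ⟨a1, a2, a3⟩ := mem_filter.1 hD
    obtain ⟨i, hi⟩ := not_forall.1 a3
    obtain ⟨t, d, rfl, b1, b2⟩ : ∃ t d : ℤ, D = t * d ∧ (t = 1 ∨ t = 5) ∧ ¬ 5 ∣ d := by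
      by_cases k : 5 ∣ D
      · obtain ⟨d, rfl⟩ := k
        exact ⟨5, d, rfl, .inr rfl, fun k => p5.not_isUnit (a2.1 5 (mul_dvd_mul_left _ k))⟩
      · exact ⟨1, D, (one_mul D).symm, .inl rfl, k⟩
    have c1 := (p5.irreducible.coprime_iff_not_dvd.2 b2).symm
    have c2 := a2.2.of_mul_left_right
    have c3 : IsCoprime d t := by
      rcases b1 with rfl | rfl
      exacts [isCoprime_one_right, c1]
    rw [mem_Icc] at a1
    refine mem_biUnion.2 ⟨(t, i), mem_filter.2 ⟨by simpa using b1, a2.1.of_mul_left,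
      a2.2.of_mul_left_left⟩, mem_image.2 ⟨d, mem_filter.2 ⟨mem_Icc.2 (by
        rcases b1 with rfl | rfl <;> omega),
        ⟨a2.1.of_mul_right, c1.mul_right (c2.of_mul_right_right.mul_right
          (c2.of_mul_right_left.pow_right.mul_right c3.pow_right))⟩, ?_⟩, rfl⟩⟩
    rwa [pw, mul_pow, ← mul_assoc (A ^ _), ← mul_assoc] at hi
  have k2 : ∀ u ∈ T, ((S u).card : ℝ) ≤ ε / 8 * X := fun u hu => by
    obtain ⟨a1, a2⟩ := mem_filter.1 hu
    have a3 := (le_sup (f := fun i => max (X0 1 i) (X0 5 i)) (mem_univ u.2)).trans hX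
    refine (Nat.cast_le.2 card_image_le).trans (h u.1 u.2 a2 X ?_)
    rcases (by simpa using a1 : u.1 = 1 ∨ u.1 = 5) with e | e <;> rw [e]
    exacts [le_of_max_le_left a3, le_of_max_le_right a3]
  have k3 := Nat.cast_le (α := ℝ).2 ((card_le_card k1).trans card_biUnion_le)
  have k4 := sum_le_card_nsmul _ _ _ k2
  have k5 : (T.card : ℝ) ≤ 8 := by
    exact_mod_cast (card_filter_le _ _).trans (by rw [card_product]; rfl)
  rw [nsmul_eq_mul] at k4
  push_cast at k3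
  nlinarith [mul_nonneg hε.le (Nat.cast_nonneg X)]

theorem tend_full (hB : Fam B) (hA : Squarefree A) (hc : IsCoprime A B) (conv : QA.Conv)
    (one : QK.One) : Tendsto (fun X : ℕ =>
      (Set.ncard {D : ℤ | |D| ≤ X ∧ Cop B A D ∧ HoldsQ B A D (minus B A D)} : ℝ) /
        (Set.ncard {D : ℤ | |D| ≤ X ∧ Cop B A D} : ℝ)) atTop (𝓝 1) := by
  refine ratio (dens_cop hB.ne hA.ne_zero) fun ε hε => ?_
  obtain ⟨X0, h⟩ := few_pair hB hA hc hε
  refine ⟨X0, fun X hX => le_trans (Nat.cast_le.2 (card_le_card fun D hD => ?_)) (h X hX)⟩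
  simp only [mem_filter] at hD ⊢
  refine ⟨hD.1, hD.2.1, fun k => hD.2.2 ?_⟩
  have e : minus B A D = ∑ i, if Wq (B * pw A D i) then 0 else 1 := by
    rw [minus, Set.ncard_eq_toFinset_card', Set.toFinset_ofPred, card_filter]
    simp only [ite_not]
  rw [e]
  exact holds_eq hB.ne (hD.2.1.sqf hA) fun i => QK.goodF conv one (fam_pw hB hA hc hD.2.1 i) (k i)

end Pool.Agent.Lib.MP_60ff09_nt.QB
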