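import Pool.Agent.Lib.MP_60ff09_nt.QB.Defs

/-! Sums of two representations induced from quartic Kummer characters of the Gaussian field. -/

set_option autoImplicit false

open NumberField CategoryTheory MonoidalCategory

namespace Pool.Agent.Lib.MP_60ff09_nt.QB

open MP_696deb_nt.QA (Fam Wq)

/-- The representation `V` is the sum of the two representations induced from the characters of the
subgroup fixing `ι` that send `σ` to `j ^ k` when `σ (y a) = ι ^ k y a`. -/
def Theta2 {M L : Type} [Field M] [NumberField M] [Field L] (V : Rep L (M ≃ₐ[ℚ] M)) (ι : M)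
    (y : Fin 2 → M) (j : L) : Prop :=
  ∃ (v : Module.Basis (Fin 2 × Fin 2) L V) (τ : M ≃ₐ[ℚ] M), τ ι = -ι ∧ ∀ a : Fin 2,
    V.ρ τ (v (a, 0)) = v (a, 1) ∧ ∀ (σ : M ≃ₐ[ℚ] M) (k : ℕ), σ ι = ι → σ (y a) = ι ^ k * y a →
      V.ρ σ (v (a, 0)) = j ^ k • v (a, 0)

/-- The curve `y ^ 2 = x ^ 3 - N x` has root number minus one. -/
def Neg (N : ℤ) : Prop := ∃ R m : ℤ, Fam R ∧ N = R * m ^ 4 ∧ ¬ Wq R

/-- The number of the four curves `y ^ 2 = x ^ 3 - B (N a) ^ b x` with `b` equal to one or three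
whose root number is minus one. -/
noncomputable def minus2 (B : ℤ) (N : Fin 2 → ℤ) : ℕ :=
  Set.ncard {i : Fin 2 × Fin 2 | Neg (B * N i.1 ^ (2 * i.2.1 + 1))}

/-- The conjecture holds, both sides being `r`, for the newform attached to the curve
`y ^ 2 = x ^ 3 - B x` and all pairs of two-dimensional representations whose tensor product is the
sum of the representations induced from the quartic characters of the Gaussian field given by the
fourth roots of `N 0` and of `N 1`. -/
def HoldsP (B : ℤ) (N : Fin 2 → ℤ) (r : ℕ) : Prop :=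
  ∀ (M L : Type) [Field M] [NumberField M] [IsGalois ℚ M] [Field L] [Algebra L ℂ] (ι β : M)
    (y : Fin 2 → M) (j : L) (Vg Vh : Rep L (M ≃ₐ[ℚ] M)), Module.finrank L Vg = 2 →
    Module.finrank L Vh = 2 → ι ^ 2 = -1 → β ^ 4 = B → (∀ a, y a ^ 4 = N a) → j ^ 2 = -1 →
    Theta2 (Vg ⊗ Vh) ι y j → V6.BeilN (Eb B) (2 * B).natAbs (ab B) (Vg ⊗ Vh) r

end Pool.Agent.Lib.MP_60ff09_nt.QB
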