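import Pool.Agent.Lib.MP_60ff09_nt.QB.Gal
import Pool.Agent.Lib.MP_696deb_nt.Q4.Link

/-! Eigenspaces of quartic characters in the points of the curve `y ^ 2 = x ^ 3 - x`. -/

set_option autoImplicit false

open scoped Classical TensorProduct
open Pool.Agent.Lib.MP_696deb_nt Pool.Agent.Lib.MP_696deb_nt.Q4
open Pool.Agent.Lib.MP_696deb_nt.B2.Stmt (Pts pm)

namespace Pool.Agent.Lib.MP_60ff09_nt.QB

variable {H L : Type} [Field H] [Field L]

/-- The twisted maps after extension of scalars. -/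
noncomputable def TL (L : Type) [Field L] (f : H →+* H) (u : H) :
    L ⊗[ℤ] P1 H →ₗ[L] L ⊗[ℤ] P1 H := (vm f u).toIntLinearMap.baseChange L

theorem TL_tmul (f : H →+* H) (u : H) (l : L) (P : P1 H) :
    TL L f u (l ⊗ₜ P) = l ⊗ₜ vm f u P := rfl

theorem TL_ext {f g : L ⊗[ℤ] P1 H →ₗ[L] L ⊗[ℤ] P1 H} (h : ∀ l P, f (l ⊗ₜ P) = g (l ⊗ₜ P))
    (x : L ⊗[ℤ] P1 H) : f x = g x := by
  induction x using TensorProduct.induction_on with
  | zero => simp
  | add x y hx hy => rw [map_add, map_add, hx, hy]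
  | tmul l P => exact h l P

theorem TL_comp {f f' : H →+* H} {u v : H} (hu : u ^ 4 = 1) (hv : v ^ 4 = 1) (x : L ⊗[ℤ] P1 H) :
    TL L f' v (TL L f u x) = TL L (f'.comp f) (v * f' u) x :=
  TL_ext (f := TL L f' v ∘ₗ TL L f u) (g := TL L (f'.comp f) (v * f' u))
    (fun l P => congrArg (l ⊗ₜ[ℤ] ·) (vm_comp hu hv P)) x

theorem TL_one (x : L ⊗[ℤ] P1 H) : TL L (RingHom.id H) 1 x = x :=
  TL_ext (g := LinearMap.id) (fun l P => congrArg (l ⊗ₜ[ℤ] ·) (vm_one P)) x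

theorem TL_neg (x : L ⊗[ℤ] P1 H) : TL L (RingHom.id H) (-1) x = -x :=
  TL_ext (g := -LinearMap.id) (fun l P => by
    rw [TL_tmul, vm_neg (one_pow 4), vm_one, TensorProduct.tmul_neg]
    rfl) x

theorem TL_pow {ι : H} (hι : ι ^ 2 = -1) {c : L} {x : L ⊗[ℤ] P1 H}
    (h : TL L (RingHom.id H) ι x = c • x) (k : ℕ) : TL L (RingHom.id H) (ι ^ k) x = c ^ k • x := by
  induction k with
  | zero => rw [pow_zero, pow_zero, TL_one, one_smul]
  | succ k ih =>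
    have e := TL_comp (f := RingHom.id H) (f' := RingHom.id H) (pow_four hι)
      (v := ι ^ k) (by rw [← pow_mul, mul_comm, pow_mul, pow_four hι, one_pow]) x
    rw [h, map_smul, ih, smul_smul, ← pow_succ'] at e
    exact (pow_succ ι k).symm ▸ e.symm

theorem TL_anti {ι u : H} (hι : ι ^ 2 = -1) (hu : u ^ 4 = 1) {f : H →+* H} (hf : f ι = -ι)
    (x : L ⊗[ℤ] P1 H) :
    TL L (RingHom.id H) ι (TL L f u x) = -TL L f u (TL L (RingHom.id H) ι x) := by
  have h4 := pow_four hι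
  rw [← TL_neg, TL_comp hu h4, TL_comp h4 hu,
    TL_comp (by rw [mul_pow, hu, ← map_pow, h4, map_one, mul_one]) (by norm_num), hf]
  simp [mul_comm]

variable [NumberField H] [IsGalois ℚ H] {N : ℤ} {ι y : H}

omit [IsGalois ℚ H] in
theorem vc_rat (N : ℤ) : VC (algebraMap ℚ H) (ED N) ((ED N).baseChange H) 1 0 0 0 := by
  refine ⟨one_ne_zero, ?_, ?_, ?_, ?_, ?_⟩ <;> simp [WeierstrassCurve.baseChange]

theorem exists_rat (S : Pts (ED N) H) (h : ∀ σ : H ≃ₐ[ℚ] H, pm (ED N) (σ : H →+* H) S = S) :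
    ∃ R, (vc_rat N).hom R = S := by
  rcases S with _ | ⟨x, y, k⟩
  · exact ⟨0, rfl⟩
  have e : ∀ σ : H ≃ₐ[ℚ] H, σ x = x ∧ σ y = y := fun σ =>
    WeierstrassCurve.Affine.Point.some.inj (h σ)
  obtain ⟨x', hx⟩ := (IsGalois.mem_range_algebraMap_iff_fixed (F := ℚ) x).2 fun σ => (e σ).1
  obtain ⟨y', hy⟩ := (IsGalois.mem_range_algebraMap_iff_fixed (F := ℚ) y).2 fun σ => (e σ).2
  exact (vc_rat N).mem_range k (x := x') (y := y') (by simp [← hx]) (by simp [← hy])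

omit [IsGalois ℚ H] in
theorem tw_four (hN : N ≠ 0) (hy : y ^ 4 = N) (σ : H ≃ₐ[ℚ] H) : (σ y / y) ^ 4 = 1 := by
  rw [div_pow, act_four hy, div_self (pow_ne_zero _ (link_ne hN hy))]

omit [IsGalois ℚ H] in
theorem tw_mul (hN : N ≠ 0) (hy : y ^ 4 = N) (σ τ : H ≃ₐ[ℚ] H) (R : P1 H) :
    vm (σ : H →+* H) (σ y / y) (vm (τ : H →+* H) (τ y / y) R) =
      vm ((σ * τ : H ≃ₐ[ℚ] H) : H →+* H) ((σ * τ) y / y) R := by
  rw [vm_comp (tw_four hN hy τ) (tw_four hN hy σ)]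
  congr 2
  have h0 : σ y ≠ 0 := (map_ne_zero σ).2 (link_ne hN hy)
  simp only [RingHom.coe_coe, map_div₀, AlgEquiv.mul_apply]
  field_simp

omit [IsGalois ℚ H] in
theorem TL_mul (hN : N ≠ 0) (hy : y ^ 4 = N) (σ τ : H ≃ₐ[ℚ] H) (x : L ⊗[ℤ] P1 H) :
    TL L σ (σ y / y) (TL L τ (τ y / y) x) = TL L (σ * τ : H ≃ₐ[ℚ] H) ((σ * τ) y / y) x :=
  TL_ext (f := TL L σ (σ y / y) ∘ₗ TL L τ (τ y / y))
    (g := TL L (σ * τ : H ≃ₐ[ℚ] H) ((σ * τ) y / y))
    (fun l P => congrArg (l ⊗ₜ[ℤ] ·) (tw_mul hN hy σ τ P)) x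

omit [IsGalois ℚ H] in
theorem TL_inj (hN : N ≠ 0) (hy : y ^ 4 = N) (τ : H ≃ₐ[ℚ] H) {x : L ⊗[ℤ] P1 H}
    (h : TL L τ (τ y / y) x = 0) : x = 0 := by
  have e := TL_mul hN hy τ⁻¹ τ x
  rw [h, map_zero, inv_mul_cancel, AlgEquiv.one_apply, div_self (link_ne hN hy)] at e
  exact (TL_one x).symm.trans e.symm

/-- The rational points of the twist inside the points of the curve. -/
noncomputable def rat (L : Type) [Field L] (hN : N ≠ 0) (hy : y ^ 4 = N) :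
    L ⊗[ℤ] (ED N).toAffine.Point →ₗ[L] L ⊗[ℤ] P1 H :=
  ((linkPsi hN hy).toAddMonoidHom.comp (vc_rat N).hom).toIntLinearMap.baseChange L

variable [CharZero L]

theorem inv_range (hN : N ≠ 0) (hy : y ^ 4 = N) {x : L ⊗[ℤ] P1 H}
    (h : ∀ σ : H ≃ₐ[ℚ] H, TL L σ (σ y / y) x = x) : x ∈ LinearMap.range (rat L hN hy) := by
  have k : ∀ z, (∑ σ : H ≃ₐ[ℚ] H, TL L σ (σ y / y)) z ∈ LinearMap.range (rat L hN hy) := fun z => by
    induction z using TensorProduct.induction_on with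
    | zero => simp
    | add x y hx hy =>
      rw [map_add]
      exact add_mem hx hy
    | tmul l P =>
      obtain ⟨S, hS⟩ := (linkPsi hN hy).surjective (∑ σ : H ≃ₐ[ℚ] H, vm (σ : H →+* H) (σ y / y) P)
      obtain ⟨R, hR⟩ := exists_rat S fun σ => (linkPsi hN hy).injective (by
        rw [link_pm hN hy hy, hS, map_sum, ← Equiv.sum_comp (Equiv.mulLeft σ)
          fun σ : H ≃ₐ[ℚ] H => vm (σ : H →+* H) (σ y / y) P]
        exact Finset.sum_congr rfl fun τ _ => tw_mul hN hy σ τ P)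
      refine ⟨l ⊗ₜ R, ?_⟩
      rw [LinearMap.sum_apply]
      change l ⊗ₜ linkPsi hN hy ((vc_rat N).hom R) = _
      rw [hR, hS, TensorProduct.tmul_sum]
      rfl
  have k1 := k x
  rw [LinearMap.sum_apply, Finset.sum_congr rfl fun σ _ => h σ, Finset.sum_const,
    ← Nat.cast_smul_eq_nsmul L] at k1
  exact (Submodule.smul_mem_iff _ (Nat.cast_ne_zero.2 Finset.univ_nonempty.card_ne_zero)).1 k1

omit [NumberField H] [IsGalois ℚ H] [CharZero L] in
theorem part_eig (hι : ι ^ 2 = -1) {c : L} (hc : c ^ 2 = -1) (x : L ⊗[ℤ] P1 H) :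
    TL L (RingHom.id H) ι (TL L (RingHom.id H) ι x + c • x) =
      c • (TL L (RingHom.id H) ι x + c • x) := by
  have h4 := pow_four hι
  rw [map_add, map_smul, TL_comp h4 h4, RingHom.comp_id, RingHom.id_apply, ← sq, hι, TL_neg,
    smul_add, smul_smul, ← sq, hc, neg_one_smul, add_comm]

omit [NumberField H] [IsGalois ℚ H] [CharZero L] in
theorem part_fix (hι : ι ^ 2 = -1) {c b : L} (hc : c ^ 2 = -1) {x : L ⊗[ℤ] P1 H} {f : H →+* H}
    (hf : f ι = ι) {u : H} (hu : u ^ 4 = 1) {k : ℕ} (e2 : TL L f u x = b • x)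
    (e3 : b * c ^ k = 1) :
    TL L f (ι ^ k * u) (TL L (RingHom.id H) ι x + c • x) = TL L (RingHom.id H) ι x + c • x := by
  have h4 := pow_four hι
  have e5 : TL L f u (TL L (RingHom.id H) ι x + c • x) = b • (TL L (RingHom.id H) ι x + c • x) := by
    rw [map_add, map_smul, smul_add, ← map_smul (TL L (RingHom.id H) ι), smul_comm b, ← e2,
      TL_comp h4 hu, TL_comp hu h4]
    simp [hf, mul_comm]
  have e6 := TL_comp (f := f) (f' := RingHom.id H) hu (v := ι ^ k)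
    (by rw [← pow_mul, mul_comm, pow_mul, h4, one_pow]) (TL L (RingHom.id H) ι x + c • x)
  rw [e5, map_smul, TL_pow hι (part_eig hι hc x), smul_smul, e3, one_smul] at e6
  exact e6.symm

theorem sym_range (hN : N ≠ 0) (hι : ι ^ 2 = -1) (hy : y ^ 4 = N) {τ : H ≃ₐ[ℚ] H}
    (hτ : τ ι = -ι) {z : L ⊗[ℤ] P1 H}
    (h : ∀ σ : H ≃ₐ[ℚ] H, σ ι = ι → TL L σ (σ y / y) z = z) :
    z + TL L τ (τ y / y) z ∈ LinearMap.range (rat L hN hy) := by
  have hτ' : τ.symm ι = -ι := by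
    rw [← neg_eq_iff_eq_neg, ← map_neg, ← hτ, AlgEquiv.symm_apply_apply]
  refine inv_range hN hy fun σ => ?_
  rw [map_add, TL_mul hN hy]
  rcases V4.pm_of_sq (d := -1) (by exact_mod_cast hι) σ with k | k
  · rw [h σ k, show σ * τ = τ * (τ⁻¹ * σ * τ) by group, ← TL_mul hN hy,
      h _ (by simp [hτ, hτ', k])]
  · rw [h (σ * τ) (by simp [hτ, k]), show σ = τ * (τ⁻¹ * σ) by group, ← TL_mul hN hy,
      h _ (by simp [hτ', k]), add_comm]

omit [NumberField H] [IsGalois ℚ H] in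
theorem two_eig {c : L} (hc : c ^ 2 = -1) {z : L ⊗[ℤ] P1 H} (h1 : TL L (RingHom.id H) ι z = c • z)
    (h2 : TL L (RingHom.id H) ι z = -(c • z)) : z = 0 := by
  rw [h1, eq_neg_iff_add_eq_zero, ← add_smul, ← two_mul] at h2
  refine (smul_eq_zero.1 h2).resolve_left (mul_ne_zero two_ne_zero fun e => ?_)
  rw [e] at hc
  norm_num at hc

omit [NumberField H] [IsGalois ℚ H] in
theorem sym_zero (hι : ι ^ 2 = -1) {u : H} (hu : u ^ 4 = 1) {f : H →+* H} (hf : f ι = -ι) {c : L}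
    (hc : c ^ 2 = -1) {z : L ⊗[ℤ] P1 H} (h1 : TL L (RingHom.id H) ι z = c • z)
    (h : z + TL L f u z = 0) : z = 0 := by
  refine two_eig hc h1 ?_
  have e := TL_anti hι hu hf z
  rw [h1, map_smul, (add_eq_zero_iff_neg_eq.1 h).symm, map_neg, smul_neg, neg_neg] at e
  exact neg_eq_iff_eq_neg.1 e

omit [IsGalois ℚ H] in
theorem rank_rat (hN : N ≠ 0) (hy : y ^ 4 = N) [Module.Finite ℤ (ED N).toAffine.Point] :
    Module.finrank L (LinearMap.range (rat L hN hy)) ≤ Module.finrank ℤ (ED N).toAffine.Point :=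
  (LinearMap.finrank_range_le _).trans (TensorProduct.isBaseChange ℤ _ L).finrank_eq.le

end Pool.Agent.Lib.MP_60ff09_nt.QB
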