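import Pool.Agent.Lib.MP_60ff09_nt.QB.Defs
import Pool.Agent.Lib.MP_60ff09_nt.QB.Hom
import Pool.Agent.Lib.MP_60ff09_nt.V4Eul

/-! The tensor product of two induced representations, and equivariant maps from it. -/

set_option autoImplicit false

open scoped Classical TensorProduct
open CategoryTheory MonoidalCategory
open Pool.Agent.Lib.MP_696deb_nt Pool.Agent.Lib.MP_696deb_nt.Q4
open Pool.Agent.Lib.MP_696deb_nt.B2.Stmt (Pts pm)

namespace Pool.Agent.Lib.MP_60ff09_nt.QB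

open V4 V6

/-- The opposite index. -/
def op (i : Fin 2 × Fin 2) : Fin 2 × Fin 2 := (i.1.rev, i.2.rev)

theorem op_op (i : Fin 2 × Fin 2) : op (op i) = i := by simp [op]

theorem pw_op {R : Type} [CommMonoid R] (a b : R) (i : Fin 2 × Fin 2) :
    pw a b i * pw a b (op i) = a ^ 4 * b ^ 4 := by
  have h : ∀ k : Fin 2, 2 * k.1 + 1 + (2 * k.rev.1 + 1) = 4 := by decide
  rw [pw, pw, mul_mul_mul_comm, ← pow_add, ← pow_add]
  exact congrArg₂ (fun m n => a ^ m * b ^ n) (h _) (h _)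

variable {M L : Type} [Field M] [NumberField M] [Field L] {ι α δ y : M} {j : L} {A D N : ℤ}

omit [NumberField M] in
theorem pw_four (hα : α ^ 4 = A) (hδ : δ ^ 4 = D) (i : Fin 2 × Fin 2) :
    pw α δ i ^ 4 = (pw A D i : ℤ) := by
  rw [pw, pw, mul_pow, ← pow_mul, ← pow_mul, mul_comm _ 4, mul_comm _ 4, pow_mul, pow_mul, hα, hδ]
  push_cast
  rfl

/-- A basis of eigenvectors for four quartic characters. -/
def Quad (V : Rep L (M ≃ₐ[ℚ] M)) (ι : M) (j : L) (y : Fin 2 × Fin 2 → M) : Prop :=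
  ∃ w : Module.Basis (Fin 2 × Fin 2) L V, (∀ (i) (σ : M ≃ₐ[ℚ] M), σ ι = ι →
    ∃ k : ℕ, σ (y i) = ι ^ k * y i ∧ V.ρ σ (w i) = j ^ k • w i) ∧
    ∃ τ : M ≃ₐ[ℚ] M, τ ι = -ι ∧ ∀ i, ∃ (c : L) (i' : Fin 2 × Fin 2), V.ρ τ (w i) = c • w i'

theorem Theta.eig {V : Rep L (M ≃ₐ[ℚ] M)} (h : Theta V ι y j) (hι : ι ^ 2 = -1) (hy : y ^ 4 = N) :
    ∃ v : Module.Basis (Fin 2) L V, (∀ (a : Fin 2) (σ : M ≃ₐ[ℚ] M) (n : ℕ), σ ι = ι →
      σ y = ι ^ n * y → V.ρ σ (v a) = j ^ ((2 * a.1 + 1) * n) • v a) ∧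
      (∀ (a : Fin 2) (σ : M ≃ₐ[ℚ] M), σ ι = -ι → ∃ (c : L) (b : Fin 2), V.ρ σ (v a) = c • v b) ∧
      ∃ τ : M ≃ₐ[ℚ] M, τ ι = -ι := by
  obtain ⟨v, h1, τ, h2, h3⟩ := h
  have h4 : τ.symm ι = -ι := by
    rw [← neg_eq_iff_eq_neg, ← map_neg, ← h2, AlgEquiv.symm_apply_apply]
  refine ⟨v, Fin.forall_fin_two.2 ⟨fun σ n e1 e2 => by simpa using h1 σ n e1 e2,
    fun σ n e1 e2 => ?_⟩, Fin.forall_fin_two.2 ⟨fun σ e => ?_, fun σ e => ?_⟩, τ, h2⟩
  · obtain ⟨t, ht⟩ := exists_exp hι (act_four hy τ)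
    have e3 := h1 (τ⁻¹ * σ * τ) (3 * n) (by simp [h2, h4, e1]) (by
      have e4 : τ.symm (ι ^ n * τ y) = ι ^ (3 * n) * y := by
        rw [map_mul, map_pow, h4, AlgEquiv.symm_apply_apply, pow_mul]
        congr 2
        linear_combination -ι * hι
      rw [← e4, AlgEquiv.mul_apply, AlgEquiv.mul_apply, ht, map_mul, map_pow, e1, e2,
        mul_left_comm]
      rfl)
    rw [← h3, ← map_smul, ← Module.End.mul_apply, ← map_mul,
      show σ * τ = τ * (τ⁻¹ * σ * τ) by group, map_mul, Module.End.mul_apply, e3]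
    rfl
  · obtain ⟨t, ht⟩ := exists_exp hι (act_four hy (τ⁻¹ * σ))
    refine ⟨j ^ t, 1, ?_⟩
    rw [← h3, ← map_smul, ← h1 _ t (by simp [h4, e]) ht, ← Module.End.mul_apply, ← map_mul,
      mul_inv_cancel_left]
  · obtain ⟨t, ht⟩ := exists_exp hι (act_four hy (σ * τ))
    refine ⟨j ^ t, 0, ?_⟩
    rw [← h3, ← h1 _ t (by simp [h2, e]) ht, ← Module.End.mul_apply, ← map_mul]

theorem quad_tensor {Vg Vh : Rep L (M ≃ₐ[ℚ] M)} (hι : ι ^ 2 = -1) (hα : α ^ 4 = A)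
    (hδ : δ ^ 4 = D) (hg : Theta Vg ι α j) (hh : Theta Vh ι δ j) :
    Quad (Vg ⊗ Vh) ι j (pw α δ) := by
  obtain ⟨v, g1, g2, τ, g3⟩ := hg.eig hι hα
  obtain ⟨u, h1, h2, -⟩ := hh.eig hι hδ
  have e : ∀ σ a b, (Vg ⊗ Vh).ρ σ (v.tensorProduct u (a, b)) = Vg.ρ σ (v a) ⊗ₜ[L] Vh.ρ σ (u b) :=
    fun σ a b => by
      rw [Module.Basis.tensorProduct_apply]
      rfl
  refine ⟨v.tensorProduct u, fun ⟨a, b⟩ σ k => ?_, τ, g3, fun ⟨a, b⟩ => ?_⟩
  · obtain ⟨m, hm⟩ := exists_exp hι (act_four hα σ)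
    obtain ⟨n, hn⟩ := exists_exp hι (act_four hδ σ)
    refine ⟨(2 * a.1 + 1) * m + (2 * b.1 + 1) * n, ?_, ?_⟩
    · rw [pw, map_mul, map_pow, map_pow, hm, hn]
      ring
    · rw [e, g1 a σ m k hm, h1 b σ n k hn, TensorProduct.smul_tmul_smul, ← pow_add,
        Module.Basis.tensorProduct_apply]
  · obtain ⟨c, a', hc⟩ := g2 a τ g3
    obtain ⟨d, b', hd⟩ := h2 b τ g3
    exact ⟨c * d, (a', b'), by
      rw [e, hc, hd, TensorProduct.smul_tmul_smul, Module.Basis.tensorProduct_apply]⟩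

variable [IsGalois ℚ M] [CharZero L] {B : ℤ} {β : M}

omit [IsGalois ℚ M] in
theorem exists_emb (L : Type) [Field L] [CharZero L] (hB : B ≠ 0) (hβ : β ^ 4 = B) {H : Type}
    [Field H] [NumberField H] (f : H →ₐ[ℚ] M) : ∃ E : bc L (pts (ED B) H) →ₗ[L] L ⊗[ℤ] P1 M,
      Function.Injective E ∧ ∀ (σ : M ≃ₐ[ℚ] M) (σ' : H ≃ₐ[ℚ] H), (∀ x, f (σ' x) = σ (f x)) →
        ∀ x, E ((bc L (pts (ED B) H)).ρ σ' x) = TL L (σ : M →+* M) (σ β / β) (E x) := by
  let Φ : Pts (ED B) H →+ P1 M := (linkPsi hB hβ).toAddMonoidHom.comp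
    (WeierstrassCurve.Affine.Point.map (W' := (ED B).toAffine) f)
  let E : bc L (pts (ED B) H) →ₗ[L] L ⊗[ℤ] P1 M := Φ.toIntLinearMap.baseChange L
  refine ⟨E, Module.Flat.lTensor_preserves_injective_linearMap _ ((linkPsi hB hβ).injective.comp
    (WeierstrassCurve.Affine.Point.map_injective _)), fun σ σ' h x => ?_⟩
  refine TensorProduct.induction_on (motive := fun x => x ∈ LinearMap.eqLocus
    (E ∘ₗ (bc L (pts (ED B) H)).ρ σ') (TL L (σ : M →+* M) (σ β / β) ∘ₗ E)) x (zero_mem _)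
      (fun l P => ?_) fun _ _ => add_mem
  refine congrArg (l ⊗ₜ[ℤ] ·) (Eq.trans (congrArg (linkPsi hB hβ) ?_)
    (link_pm hB hβ hβ (σ : M →+* M) _))
  rcases P with _ | ⟨x, y, k⟩
  · rfl
  · exact WeierstrassCurve.Affine.Point.some.congr_simp _ _ (h x) _ _ (h y) _

theorem exists_lin (hB : B ≠ 0) (hβ : β ^ 4 = B) (V : Rep L (M ≃ₐ[ℚ] M)) :
    ∃ X : HomW (ED B) V →ₗ[L] V →ₗ[L] L ⊗[ℤ] P1 M, Function.Injective X ∧
      ∀ φ (σ : M ≃ₐ[ℚ] M) x, X φ (V.ρ σ x) = TL L (σ : M →+* M) (σ β / β) (X φ x) := by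
  obtain ⟨E, inj, hE⟩ := exists_emb L hB hβ (IntermediateField.fixedField V.ρ.ker).val
  refine ⟨{ toFun := fun φ => E ∘ₗ φ.hom.toLinearMap
            map_add' := fun φ ψ => LinearMap.ext fun x => map_add E (φ.hom x) (ψ.hom x)
            map_smul' := fun c φ => LinearMap.ext fun x => map_smul E c (φ.hom x) },
    fun φ ψ k => Rep.hom_ext (Representation.IntertwiningMap.ext (LinearMap.ext fun x =>
      inj (LinearMap.congr_fun k x))), fun φ σ x => ?_⟩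
  exact (congrArg E (Rep.hom_comm_apply φ σ x)).trans
    (hE σ (AlgEquiv.restrictNormalHom _ σ) (fun x => σ.restrictNormal_commutes _ x) _)

theorem hom_le {V : Rep L (M ≃ₐ[ℚ] M)} {y : Fin 2 × Fin 2 → M} {N : Fin 2 × Fin 2 → ℤ}
    (h : Quad V ι j y) (hι : ι ^ 2 = -1) (hj : j ^ 2 = -1) (hB : B ≠ 0) (hβ : β ^ 4 = B)
    (hy : ∀ i, y i ^ 4 = N i) (hN : ∀ i, N i ≠ 0)
    (hf : ∀ i, Module.Finite ℤ (ED (B * N i)).toAffine.Point) : Module.Finite L (HomW (ED B) V) ∧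
      Module.finrank L (HomW (ED B) V) ≤ ∑ i, Module.finrank ℤ (ED (B * N i)).toAffine.Point := by
  obtain ⟨w, h1, τ, h2, h3⟩ := h
  obtain ⟨X, inj, eq⟩ := exists_lin hB hβ V
  generalize HomW (ED B) V = W at X inj eq
  have n0 : ∀ i, B * N i ≠ 0 := fun i => mul_ne_zero hB (hN i)
  have hY : ∀ i, (β * y i) ^ 4 = (B * N i : ℤ) := fun i => by rw [mul_pow, hβ, hy, Int.cast_mul]
  have hc : (-j) ^ 2 = -1 := by rwa [neg_sq]
  let z : W → Fin 2 × Fin 2 → L ⊗[ℤ] P1 M := fun φ i =>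
    TL L (RingHom.id M) ι (X φ (w i)) + (-j) • X φ (w i)
  let Ψ : W →ₗ[L] ∀ i, LinearMap.range (rat L (n0 i) (hY i)) :=
    { toFun := fun φ i => ⟨z φ i + TL L τ (τ (β * y i) / (β * y i)) (z φ i),
        sym_range (n0 i) hι (hY i) h2 fun σ hσ => by
          obtain ⟨k, e1, e2⟩ := h1 i σ hσ
          have e3 := eq φ σ (w i)
          rw [e2, map_smul] at e3
          rw [map_mul, e1, mul_div_mul_comm, mul_div_cancel_right₀ _ (link_ne (hN i) (hy i)),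
            mul_comm]
          exact part_fix hι hc hσ (tw_four hB hβ σ) e3.symm (by
            rw [← mul_pow, mul_neg, ← sq, hj, neg_neg, one_pow])⟩
      map_add' := fun φ ψ => funext fun i => Subtype.ext (by
        simp only [z, map_add, smul_add, Pi.add_apply, Submodule.coe_add, LinearMap.add_apply]
        abel)
      map_smul' := fun c φ => funext fun i => Subtype.ext (by
        simp only [z, map_add, map_smul, smul_add, Pi.smul_apply, Submodule.coe_smul,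
          RingHom.id_apply, smul_comm c, LinearMap.smul_apply]) }
  have hΨ : Function.Injective Ψ := (injective_iff_map_eq_zero Ψ).2 fun φ k => by
    have k1 : ∀ i, TL L (RingHom.id M) ι (X φ (w i)) = j • X φ (w i) := fun i => by
      have e := sym_zero hι (tw_four (n0 i) (hY i) τ) h2 hc (part_eig hι hc _)
        (congrArg Subtype.val (congrFun k i))
      rwa [neg_smul, add_neg_eq_zero] at e
    refine inj ((w.ext fun i => ?_).trans (map_zero X).symm)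
    refine TL_inj hB hβ τ (two_eig (ι := ι) hj ?_ ?_)
    · obtain ⟨c, i', e⟩ := h3 i
      rw [← eq, e, map_smul, map_smul, k1, smul_comm]
    · rw [TL_anti hι (tw_four hB hβ τ) h2, k1, map_smul]
  refine ⟨Module.Finite.of_injective Ψ hΨ, (LinearMap.finrank_le_finrank_of_injective hΨ).trans ?_⟩
  rw [Module.finrank_pi_fintype]
  exact Finset.sum_le_sum fun i _ => rank_rat (n0 i) (hY i)

end Pool.Agent.Lib.MP_60ff09_nt.QB
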