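import Pool.Agent.Lib.MP_60ff09_nt.QB.GDefs
import Pool.Agent.Lib.MP_60ff09_nt.QB.Quad
import Pool.Agent.Lib.MP_696deb_nt.B2.B3a

/-! Ramification of fourth roots, and eigenvectors in sums of induced representations. -/

set_option autoImplicit false

open scoped Classical NNReal Pointwise
open NumberField Pool.Agent.Lib.MP_696deb_nt
open Pool.Agent.Lib.MP_696deb_nt.B2 (Qbar Zbar Plc b2aP)

namespace Pool.Agent.Lib.MP_60ff09_nt.QB

open V4

variable {M L : Type} [Field M] [NumberField M] [Field L] {p : ℕ} {Q : Ideal (𝓞 M)}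

theorem exists_ine4 [IsGalois ℚ M] {y : M} {N : ℤ} (hy : y ^ 4 = N) (hp : p.Prime) [Q.IsPrime]
    (hQ : (p : 𝓞 M) ∈ Q) (hN : QA.Fam N) (h1 : (p : ℤ) ∣ N) :
    ∃ τ ∈ Q.inertia (M ≃ₐ[ℚ] M), τ y ≠ y := by
  let f : M →ₐ[ℚ] Qbar := IsAlgClosed.lift
  let _ := f.toRingHom.toAlgebra
  have : IsScalarTower ℚ M Qbar := .of_algHom f
  let F : 𝓞 M →+* Zbar := ((algebraMap M Qbar).comp (algebraMap _ M)).codRestrict
    (integralClosure ℤ Qbar) fun a => map_isIntegral_int (algebraMap M Qbar) a.isIntegral_coe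
  let _ := F.toAlgebra
  have : Algebra.IsIntegral (𝓞 M) Zbar := ⟨RingHom.IsIntegral.tower_top (Int.castRingHom _) F (by
    rw [Subsingleton.elim (RingHom.comp _ _) (algebraMap ℤ Zbar)]
    exact Algebra.IsIntegral.isIntegral)⟩
  have : Q.IsMaximal := Ideal.IsPrime.isMaximal ‹_› fun e => by
    rw [e, Ideal.mem_bot, Nat.cast_eq_zero] at hQ
    exact hp.ne_zero hQ
  obtain ⟨P, k1, k2⟩ := Ideal.exists_ideal_over_maximal_of_isIntegral (S := Zbar) Q fun a ha => by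
    have e : algebraMap M Qbar a = 0 := congrArg Subtype.val (RingHom.mem_ker.1 ha)
    rw [show a = 0 by simpa using e]
    exact zero_mem _
  obtain ⟨w, rfl⟩ := B2.b2a_surj P k1
  have k3 : ∀ a : 𝓞 M, a ∈ Q ↔ w.V (algebraMap M Qbar a) < 1 := fun a => by
    rw [← k2]
    rfl
  obtain rfl : w.p = p := by
    have e := (k3 _).1 hQ
    rw [RingOfIntegers.coe_eq_algebraMap, map_natCast, map_natCast, ← Int.cast_natCast] at e
    exact (Nat.prime_dvd_prime_iff_eq w.prime hp).1 (Int.natCast_dvd_natCast.1 (by_contra fun k =>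
      e.ne (w.V_int_eq_one.2 k)))
  by_contra! k
  obtain ⟨n, hn⟩ := B2.V_of_fx_ine (w := w) (x := algebraMap M Qbar y) (fun σ hσ => by
    rw [← σ.restrictNormal_commutes M, k _ fun a => (k3 _).2 ?_]
    have e := hσ.2 _ (w.V_le_one_of_isIntegral (F a).2)
    rw [show ((F a : Zbar) : Qbar) = algebraMap M Qbar a from rfl,
      ← σ.restrictNormal_commutes M, ← map_sub] at e
    exact e) ((map_ne_zero _).2 (Q4.link_ne hN.ne hy))
  have e := congrArg (fun x => w.V (algebraMap M Qbar x)) hy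
  simp only [map_pow, map_intCast] at e
  rw [hn, B2.b2a_V_int w hN.ne, inv_pow, inv_inj, ← zpow_natCast, ← zpow_mul, ← zpow_natCast,
    zpow_right_inj₀ (zero_lt_one.trans (B2.b2a_one_lt w)) (B2.b2a_one_lt w).ne'] at e
  have := hN.val hp h1
  omega

theorem ine_conj [Q.IsPrime] {φ τ : M ≃ₐ[ℚ] M} (hφ : IsArithFrobAt ℤ φ Q)
    (hτ : τ ∈ Q.inertia (M ≃ₐ[ℚ] M)) : φ⁻¹ * τ * φ ∈ Q.inertia (M ≃ₐ[ℚ] M) := fun x => by
  have e := hτ (φ • x)
  rw [← MulAction.mem_stabilizer_iff.1 hφ.mem_stabilizer] at e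
  simpa [mul_smul, smul_sub] using Ideal.mem_pointwise_smul_iff_inv_smul_mem.1 e

theorem Theta2.quad {V : Rep L (M ≃ₐ[ℚ] M)} {ι : M} {y : Fin 2 → M} {j : L} {N m : Fin 2 → ℤ}
    (h : Theta2 V ι y j) (hι : ι ^ 2 = -1) (hy : ∀ a, y a ^ 4 = N a) :
    Quad V ι j fun i => y i.1 ^ (2 * i.2.1 + 1) / m i.1 ^ i.2.1 := by
  obtain ⟨v, τ, h2, h⟩ := h
  have h4 : τ.symm ι = -ι := by
    rw [← neg_eq_iff_eq_neg, ← map_neg, ← h2, AlgEquiv.symm_apply_apply]
  refine ⟨v, fun ⟨a, b⟩ σ e1 => ?_, τ, h2, fun ⟨a, b⟩ => ?_⟩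
  · obtain ⟨h3, h1⟩ := h a
    obtain ⟨n, e2⟩ := exists_exp hι (act_four (hy a) σ)
    refine ⟨(2 * b.1 + 1) * n, by
      rw [map_div₀, map_pow, map_pow, map_intCast, e2]
      ring, ?_⟩
    revert b
    refine Fin.forall_fin_two.2 ⟨by simpa using h1 σ n e1 e2, ?_⟩
    obtain ⟨t, ht⟩ := exists_exp hι (act_four (hy a) τ)
    have e3 := h1 (τ⁻¹ * σ * τ) (3 * n) (by simp [h2, h4, e1]) (by
      have e4 : τ.symm (ι ^ n * τ (y a)) = ι ^ (3 * n) * y a := by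
        rw [map_mul, map_pow, h4, AlgEquiv.symm_apply_apply, pow_mul]
        congr 2
        linear_combination -ι * hι
      rw [← e4, AlgEquiv.mul_apply, AlgEquiv.mul_apply, ht, map_mul, map_pow, e1, e2,
        mul_left_comm]
      rfl)
    rw [← h3, ← map_smul, ← Module.End.mul_apply, ← map_mul,
      show σ * τ = τ * (τ⁻¹ * σ * τ) by group, map_mul, Module.End.mul_apply, e3]
    rfl
  · obtain ⟨h3, h1⟩ := h a
    revert b
    refine Fin.forall_fin_two.2 ⟨⟨1, (a, 1), by rw [h3, one_smul]⟩, ?_⟩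
    obtain ⟨t, ht⟩ := exists_exp hι (act_four (hy a) (τ * τ))
    refine ⟨j ^ t, (a, 0), ?_⟩
    rw [← h3, ← h1 _ t (by simp [h2]) ht, ← Module.End.mul_apply, ← map_mul]

end Pool.Agent.Lib.MP_60ff09_nt.QB
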