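import Pool.Agent.Lib.MP_60ff09_nt.QB.GEul
import Pool.Agent.Lib.MP_60ff09_nt.QB.Den
import Pool.Agent.Lib.MP_60ff09_nt.QB.HomEq
import Pool.Agent.Lib.MP_696deb_nt.QK.One

/-! A set of density one of parameters for which the conjecture holds. -/

set_option autoImplicit false

open scoped Classical
open Finset Filter Topology
open Pool.Agent.Lib.MP_696deb_nt Pool.Agent.Lib.MP_696deb_nt.Q4
open Pool.Agent.Lib.MP_696deb_nt.QA (Fam Wq)
open Pool.Agent.Lib.MP_696deb_nt.QK (Pair)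

namespace Pool.Agent.Lib.MP_60ff09_nt.QB

variable {B N R R' m m' : ℤ}

theorem core_gen {P : ℤ → Prop} (hP : ∀ b : ℕ, Fam b → ∀ ε : ℝ, 0 < ε → ∃ X0 : ℕ, ∀ X ≥ X0,
      (((Icc (-(X : ℤ)) X).filter fun d : ℤ =>
        (Squarefree d ∧ IsCoprime d (5 * b)) ∧ P (b * d)).card : ℝ) ≤ ε * X) {ε : ℝ} (h : 0 < ε) : ∃ X0 : ℕ, ∀ X ≥ X0,
    (((Icc (-(X : ℤ)) X).filter fun D => Fam D ∧ P D).card : ℝ) ≤ ε * X := by
  obtain ⟨K, hK⟩ := exists_nat_gt (max (8 / ε) 5)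
  have K5 : 5 ≤ K := by exact_mod_cast (le_max_right _ _).trans hK.le
  replace hK := (le_max_left _ _).trans_lt hK
  have Kp : (0 : ℝ) < K := Nat.cast_pos.2 (by omega)
  obtain ⟨L, hL⟩ : ∃ L, L = K.factorial ^ 3 := ⟨_, rfl⟩
  have L0 : L ≠ 0 := hL ▸ pow_ne_zero _ K.factorial_ne_zero
  have Lp : (0 : ℝ) < L := Nat.cast_pos.2 (Nat.pos_of_ne_zero L0)
  choose! X0 h1 using fun (b : ℕ) (hb : Fam b) => hP b hb (ε / (2 * L)) (by positivity)
  refine ⟨L.divisors.sup X0, fun X hX => ?_⟩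
  let A : ℕ → Finset ℤ := fun b => (Icc (-(X : ℤ)) X).filter fun d =>
    (Squarefree d ∧ IsCoprime d (5 * b)) ∧ P (b * d)
  have k3 : ((Icc (-(X : ℤ)) X).filter fun D => Fam D ∧ P D) ⊆
      ((Icc (-(X : ℤ)) X).filter fun D => D ≠ 0 ∧ ∃ k, K < k ∧ k * k ∣ D.natAbs) ∪
        (L.divisors.filter fun b : ℕ => Fam b).biUnion fun b => (A b).image ((b : ℤ) * ·) :=
    fun D hD => by
      obtain ⟨a, b, c⟩ := mem_filter.1 hD
      by_cases k : ∃ k, K < k ∧ k * k ∣ D.natAbs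
      · exact mem_union_left _ (mem_filter.2 ⟨a, b.ne, k⟩)
      obtain ⟨e, d, rfl, s1, s2, s3⟩ := QK.exists_smooth b k
      have e0 : e ≠ 0 := ne_zero_of_dvd_ne_zero L0 (hL ▸ s3)
      have l : d.natAbs ≤ ((e : ℤ) * d).natAbs := by
        rw [Int.natAbs_mul, Int.natAbs_natCast]
        exact Nat.le_mul_of_pos_left _ (Nat.pos_of_ne_zero e0)
      rw [mem_Icc] at a
      refine mem_union_right _ (mem_biUnion.2 ⟨e, mem_filter.2 ⟨Nat.mem_divisors.2 ⟨hL ▸ s3, L0⟩,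
        fun p hp k => b p hp (k.mul_right _)⟩, mem_image.2 ⟨d, mem_filter.2 ⟨mem_Icc.2 (by omega),
          ⟨s1, IsCoprime.mul_right (s2.of_isCoprime_of_dvd_right ?_)
            ((s2.pow_right (n := 3)).of_isCoprime_of_dvd_right ?_)⟩, c⟩, rfl⟩⟩)
      · exact_mod_cast Nat.dvd_factorial (by norm_num) K5
      · exact_mod_cast s3
  have k4 := Nat.cast_le (α := ℝ).2 ((card_le_card k3).trans ((card_union_le _ _).trans
    (add_le_add le_rfl card_biUnion_le)))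
  have k5 : ∀ b ∈ L.divisors.filter fun b : ℕ => Fam b,
      (((A b).image ((b : ℤ) * ·)).card : ℝ) ≤ ε / (2 * L) * X := fun b hb =>
    (Nat.cast_le.2 card_image_le).trans (h1 b (mem_filter.1 hb).2 X
      ((le_sup (f := X0) (mem_filter.1 hb).1).trans hX))
  have k6 := sum_le_card_nsmul _ _ _ k5
  have k7 : ((L.divisors.filter fun b : ℕ => Fam b).card : ℝ) ≤ L :=
    Nat.cast_le.2 ((card_filter_le _ _).trans (Nat.card_divisors_le_self L))
  have k8 := QA.core_sq (K := K) (by omega) X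
  have k9 : 2 * ((X : ℝ) / K) ≤ ε / 4 * X := by
    rw [div_lt_iff₀ h] at hK
    rw [← mul_div_assoc, div_le_iff₀ Kp]
    nlinarith [Nat.cast_nonneg (α := ℝ) X]
  have k10 : (L : ℝ) * (ε / (2 * L) * X) = ε / 2 * X := by field_simp
  rw [nsmul_eq_mul] at k6
  have k11 := mul_le_mul_of_nonneg_right k7 (by positivity : (0 : ℝ) ≤ ε / (2 * L) * X)
  have k12 : 0 ≤ ε * X := by positivity
  push_cast at k4
  linarith

theorem fam_cop (hB : Fam B) (hN : Fam N) (hc : IsCoprime N B) : Fam (B * N) := fun p hp k => by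
  have hP := Nat.prime_iff_prime_int.1 hp
  by_cases e : (p : ℤ) ∣ N
  · exact hN p hp ((hP.coprime_iff_not_dvd.2 (ndvd hp hc e)).pow_left.dvd_of_dvd_mul_left k)
  · exact hB p hp ((hP.coprime_iff_not_dvd.2 e).pow_left.dvd_of_dvd_mul_right k)

theorem red_uniq (h : Fam R) (h' : Fam R') (hm : m ≠ 0) (e : R * m ^ 4 = R' * m' ^ 4) : R = R' := by
  have m0 : m' ≠ 0 := by
    rintro rfl
    simp [h.ne, hm] at e
  have e1 : R.natAbs = R'.natAbs := (Nat.eq_iff_prime_padicValNat_eq _ _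
    (Int.natAbs_ne_zero.2 h.ne) (Int.natAbs_ne_zero.2 h'.ne)).2 fun p hp => by
      have := Fact.mk hp
      have k := congrArg (padicValInt p) e
      rw [padicValInt.mul h.ne (pow_ne_zero _ hm), padicValInt.mul h'.ne (pow_ne_zero _ m0),
        QK.val_pow hp, QK.val_pow hp] at k
      have k1 := (QK.fam_iff h.ne).1 h p hp
      have k2 := (QK.fam_iff h'.ne).1 h' p hp
      change padicValInt p R = padicValInt p R'
      omega
  have e2 : 0 < R ↔ 0 < R' := by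
    rw [← mul_pos_iff_of_pos_right (show 0 < m ^ 4 by positivity), e,
      mul_pos_iff_of_pos_right (by positivity)]
  omega

theorem neg_iff (h : Fam R) (hm : m ≠ 0) : Neg (R * m ^ 4) ↔ ¬ Wq R :=
  ⟨fun ⟨_, _, h1, h2, h3⟩ => red_uniq h h1 hm h2 ▸ h3, fun k => ⟨R, m, h, rfl, k⟩⟩

/-- The good parameters. -/
def Gd (B N : ℤ) : Prop := Fam N ∧ IsCoprime N B ∧ Pair (B * N) ∧
  ∃ R m : ℤ, Fam R ∧ m ≠ 0 ∧ N ^ 3 = R * m ^ 4 ∧ Pair (B * R)

/-- The bad parameters. -/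
def Bd (B N : ℤ) : Prop := (Fam N ∧ IsCoprime N B) ∧ ¬ Gd B N

theorem few_gd (hB : Fam B) {ε : ℝ} (hε : 0 < ε) : ∃ X0 : ℕ, ∀ X ≥ X0,
    (((Icc (-(X : ℤ)) X).filter fun N => Fam N ∧ Bd B N).card : ℝ) ≤ ε * X := by
  refine core_gen (fun b hb ε hε => ?_) hε
  by_cases hc : IsCoprime (b : ℤ) B
  swap
  · refine ⟨0, fun X _ => ?_⟩
    rw [filter_false_of_mem fun d _ k => hc k.2.1.2.of_mul_left_left, card_empty, Nat.cast_zero]
    positivity
  obtain ⟨R, m, r1, r2, r3⟩ := QK.exists_red (pow_ne_zero 3 hb.ne)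
  have r4 : IsCoprime R B := (r3 ▸ hc.pow_left : IsCoprime (R * m ^ 4) B).of_mul_left_left
  obtain ⟨X0, a0⟩ := QK.pair_few (fam_cop hB hb hc) (κ := 0) zero_le_one (half_pos hε)
  obtain ⟨X1, a1⟩ := QK.pair_few (fam_cop hB r1 r4) (κ := 1) le_rfl (half_pos hε)
  refine ⟨max X0 X1, fun X hX => ?_⟩
  refine le_trans (Nat.cast_le.2 ((card_le_card fun d hd => ?_).trans (card_union_le _ _)))
    ((Nat.cast_add _ _).trans_le ((add_le_add (a0 X (le_of_max_le_left hX))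
      (a1 X (le_of_max_le_right hX))).trans_eq (by ring)))
  obtain ⟨b1, ⟨b2, b3⟩, ⟨b4, b5⟩, b6⟩ := mem_filter.1 hd
  have c1 := b3.of_mul_right_left
  have c2 := b3.of_mul_right_right
  have c3 := b5.of_mul_left_right
  have c4 : IsCoprime d R := (r3 ▸ c2.pow_right : IsCoprime d (R * m ^ 4)).of_mul_right_left
  rw [mem_union, mem_filter, mem_filter]
  by_contra k
  simp only [b1, b2, c1.mul_right (c3.mul_right c2), c1.mul_right (c3.mul_right c4), true_and,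
    not_or, not_not] at k
  refine b6 ⟨b4, b5, by simpa [mul_assoc] using k.1, R * d ^ 3, m,
    QK.fam_mul r1 b2 c4 le_rfl, r2, by linear_combination d ^ 3 * r3, by
      simpa [mul_assoc] using k.2⟩

theorem tend_gd (hB : Fam B) : Tendsto (fun X : ℕ =>
    (Set.ncard {N : ℤ | |N| ≤ X ∧ (Fam N ∧ IsCoprime N B) ∧ Gd B N} : ℝ) /
      (Set.ncard {N : ℤ | |N| ≤ X ∧ Fam N ∧ IsCoprime N B} : ℝ)) atTop (𝓝 1) := by
  refine ratio (C := fun N => Fam N ∧ IsCoprime N B) ?_ fun ε hε => ?_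
  · obtain ⟨c, c0, X0, h⟩ := dens_cop hB.ne one_ne_zero
    refine ⟨c, c0, X0, fun X hX => (h X hX).trans (Nat.cast_le.2 (card_le_card fun d hd => ?_))⟩
    simp only [mem_filter] at hd ⊢
    exact ⟨hd.1, fun p hp k => (Nat.prime_iff_prime_int.1 hp).not_isUnit
      (hd.2.1 _ ((Dvd.intro ((p : ℤ) ^ 2) (by ring)).trans k)), hd.2.2.of_mul_right_right⟩
  · obtain ⟨X0, h⟩ := few_gd hB hε
    refine ⟨X0, fun X hX => le_trans (Nat.cast_le.2 (card_le_card fun d hd => ?_)) (h X hX)⟩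
    simp only [mem_filter] at hd ⊢
    exact ⟨hd.1, hd.2.1.1, hd.2⟩

theorem holdsP (conv : QA.Conv) (one : QK.One) (hB : Fam B) {N : Fin 2 → ℤ}
    (h : ∀ a, Gd B (N a)) : HoldsP B N (minus2 B N) := by
  intro M L _ _ _ _ _ ι β y j Vg Vh _ _ hι hβ hy hj hV
  have : CharZero L := (algebraMap L ℂ).charZero
  choose h1 h2 h3 R m r1 r2 r3 r4 using h
  obtain ⟨N', n1, n2, n3⟩ : ∃ N' : Fin 2 × Fin 2 → ℤ, (∀ i, Fam (N' i)) ∧ (∀ i, Pair (B * N' i)) ∧
      ∀ i, N i.1 ^ (2 * i.2.1 + 1) = N' i * (m i.1 ^ i.2.1) ^ 4 :=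
    ⟨fun i => ![N i.1, R i.1] i.2, fun ⟨a, b⟩ => by fin_cases b; exacts [h1 a, r1 a],
      fun ⟨a, b⟩ => by fin_cases b; exacts [h3 a, r4 a],
      fun ⟨a, b⟩ => by fin_cases b <;> simp [r3]⟩
  have n4 : ∀ i, Fam (B * N' i) := fun i => fam_cop hB (n1 i)
    (n3 i ▸ (h2 i.1).pow_left : IsCoprime (N' i * (m i.1 ^ i.2.1) ^ 4) B).of_mul_left_left
  have m0 : ∀ a, (m a : M) ≠ 0 := fun a => Int.cast_ne_zero.2 (r2 a)
  have hQ := hV.quad (m := m) hι hy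
  have hY : ∀ i : Fin 2 × Fin 2, (y i.1 ^ (2 * i.2.1 + 1) / m i.1 ^ i.2.1) ^ 4 = N' i := fun i => by
    rw [div_pow, ← pow_mul, mul_comm, pow_mul, hy, ← Int.cast_pow, n3,
      div_eq_iff (pow_ne_zero _ (pow_ne_zero _ (m0 _)))]
    push_cast
    rfl
  choose F f1 f2 f3 f4 f5 f6 using fun i => (QK.goodF conv one (n4 i) (n2 i)).2 _ _ rfl rfl _ rfl
  obtain ⟨k1, k2⟩ := hom_le hQ hι hj hB.ne hβ hY (fun i => (n1 i).ne) f4
  have k3 := k2.antisymm (hom_ge hQ hι hj hB.ne hβ hY (fun i => (n1 i).ne) f4 k1)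
  have e : minus2 B N = ∑ i, if Wq (B * N' i) then 0 else 1 := by
    rw [minus2, Set.ncard_eq_toFinset_card', Set.toFinset_ofPred, card_filter]
    refine sum_congr rfl fun i _ => ?_
    rw [n3, ← mul_assoc]
    simp only [neg_iff (n4 i) (pow_ne_zero _ (r2 _)), ite_not]
  rw [Eb_eq, e]
  refine ⟨∏ i, F i, Differentiable.finsetProd fun i _ => f1 i,
    isLN_gen hQ hι hj hY n1 (o := fun i => (i.1, i.2.rev)) (fun i => by simp) (fun ⟨a, b⟩ σ => ?_)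
      fun i => ⟨f1 i, f2 i⟩, k1, ?_, k3.trans (sum_congr rfl fun i _ => f5 i)⟩
  · have e1 : y a ^ (2 * b.1 + 1) / m a ^ b.1 * (y a ^ (2 * b.rev.1 + 1) / m a ^ b.rev.1) =
        N a / m a := by
      rw [← hy]
      fin_cases b <;> simp <;> ring
    simp only [e1, map_div₀, map_intCast]
  · rw [order_prod _ f1, k3, Nat.cast_sum]
    exact sum_congr rfl fun i _ => f6 i

theorem pairs (conv : QA.Conv) (one : QK.One) (hB : Fam B) : ∃ S : Set ℤ, Tendsto (fun X : ℕ =>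
    (Set.ncard {N : ℤ | |N| ≤ X ∧ (Fam N ∧ IsCoprime N B) ∧ N ∈ S} : ℝ) /
      (Set.ncard {N : ℤ | |N| ≤ X ∧ Fam N ∧ IsCoprime N B} : ℝ)) atTop (𝓝 1) ∧
    ∀ N : Fin 2 → ℤ, (∀ a, N a ∈ S) → HoldsP B N (minus2 B N) :=
  ⟨{N | Gd B N}, tend_gd hB, fun _ h => holdsP conv one hB h⟩

end Pool.Agent.Lib.MP_60ff09_nt.QB
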