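import Pool.Agent.Lib.MP_60ff09_nt.V4Gal
import Pool.Agent.Lib.MP_696deb_nt.QF.F1

/-! Frobenius elements and inertia groups acting on fourth roots of integers. -/

set_option autoImplicit false

open scoped Classical
open NumberField Pool.Agent.Lib.MP_696deb_nt

namespace Pool.Agent.Lib.MP_60ff09_nt.QB

open V4

theorem four_eq {R S : Type} [CommRing R] [IsDomain R] [CommRing S] (f : R →+* S) {u v : R}
    (h : u ^ 4 = v ^ 4) (e : f u = f v) (hn : 4 * f v ^ 3 ≠ 0) : u = v := by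
  by_contra k
  have h1 : u ^ 3 + u ^ 2 * v + u * v ^ 2 + v ^ 3 = 0 :=
    mul_left_cancel₀ (sub_ne_zero.2 k) (by linear_combination h)
  have h2 := congrArg f h1
  simp only [map_add, map_mul, map_pow, map_zero, e] at h2
  exact hn (by linear_combination h2)

theorem pow_four {R : Type} [CommRing R] {ι : R} (h : ι ^ 2 = -1) : ι ^ 4 = 1 := by
  linear_combination (ι ^ 2 - 1) * h

theorem pow_mod {R : Type} [CommRing R] {ι : R} (h : ι ^ 2 = -1) (k : ℕ) : ι ^ k = ι ^ (k % 4) := by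
  conv_lhs => rw [← Nat.div_add_mod k 4, pow_add, pow_mul, pow_four h, one_pow, one_mul]

theorem pow_one_of {K R : Type} [Field K] [CharZero K] [CommRing R] {ι : K} {j : R}
    (h : ι ^ 2 = -1) (hj : j ^ 2 = -1) {k : ℕ} (e : ι ^ k = 1) : j ^ k = 1 := by
  rw [pow_mod h] at e
  rw [pow_mod hj]
  rcases (by omega : k % 4 = 0 ∨ k % 4 = 1 ∨ k % 4 = 2 ∨ k % 4 = 3) with c | c | c | c <;>
    rw [c] at e ⊢
  · exact pow_zero j
  · exact absurd (by linear_combination h - (ι + 1) * e : (2 : K) = 0) two_ne_zero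
  · exact absurd (by linear_combination h - e : (2 : K) = 0) two_ne_zero
  · exact absurd (by linear_combination (1 - (ι - 1) * ι) * h + (ι - 1) * e : (2 : K) = 0)
      two_ne_zero

theorem exists_exp {K : Type} [Field K] {ι y z : K} (h : ι ^ 2 = -1) (e : z ^ 4 = y ^ 4) :
    ∃ k : ℕ, z = ι ^ k * y := by
  have h1 : (z - y) * (z - ι * y) * (z + y) * (z + ι * y) = 0 := by
    linear_combination e - (z ^ 2 - y ^ 2) * y ^ 2 * h
  simp only [mul_eq_zero] at h1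
  rcases h1 with ((k | k) | k) | k
  · exact ⟨0, by linear_combination k⟩
  · exact ⟨1, by linear_combination k⟩
  · exact ⟨2, by linear_combination k - y * h⟩
  · exact ⟨3, by linear_combination k - ι * y * h⟩

variable {M : Type} [Field M] [NumberField M] {y ι : M} {N : ℤ} {p : ℕ} {Q : Ideal (𝓞 M)}

theorem act_four (hy : y ^ 4 = N) (σ : M ≃ₐ[ℚ] M) : σ y ^ 4 = y ^ 4 := by
  rw [← map_pow, hy, map_intCast]

omit [NumberField M] in
theorem exists_r4 (hy : y ^ 4 = N) : ∃ Y : 𝓞 M, (Y : M) = y ∧ Y ^ 4 = N := by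
  have : IsIntegral ℤ y := IsIntegral.of_pow four_pos (hy ▸ isIntegral_algebraMap (x := N))
  exact ⟨⟨y, this⟩, rfl, RingOfIntegers.ext (by simpa using hy)⟩

omit [NumberField M] in
theorem not_mem {Y : 𝓞 M} (hY : Y ^ 4 = N) (hp : p.Prime) [Q.IsPrime] (hQ : (p : 𝓞 M) ∈ Q)
    (hd : ¬ (p : ℤ) ∣ 2 * N) : 4 * Y ^ 3 ∉ Q := fun h => by
  have hP := Nat.prime_iff_prime_int.1 hp
  have h1 := (int_mem hp hQ (n := (2 * N) ^ 2)).1 (by
    convert Q.mul_mem_left (Y ^ 5) h using 1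
    push_cast
    rw [← hY]
    ring)
  exact hd (hP.dvd_of_dvd_pow h1)

theorem fix_of_mem {Y : 𝓞 M} (hY : Y ^ 4 = N) (hp : p.Prime) [Q.IsPrime] (hQ : (p : 𝓞 M) ∈ Q)
    (hd : ¬ (p : ℤ) ∣ 2 * N) {σ : M ≃ₐ[ℚ] M} (h : σ • Y - Y ∈ Q) : σ Y = Y := by
  refine congrArg (fun x : 𝓞 M => (x : M)) (four_eq (Ideal.Quotient.mk Q) (u := σ • Y) (v := Y)
    ?_ (Ideal.Quotient.eq.2 h) fun k => not_mem hY hp hQ hd (Ideal.Quotient.eq_zero_iff_mem.1 ?_))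
  · rw [← smul_pow', hY]
    exact map_intCast (MulSemiringAction.toRingHom _ _ σ) N
  · rwa [map_mul, map_pow, map_ofNat]

theorem ine_four (hy : y ^ 4 = N) (hp : p.Prime) [Q.IsPrime] (hQ : (p : 𝓞 M) ∈ Q)
    (hd : ¬ (p : ℤ) ∣ 2 * N) {τ : M ≃ₐ[ℚ] M} (hτ : τ ∈ Q.inertia (M ≃ₐ[ℚ] M)) : τ y = y := by
  obtain ⟨Y, rfl, hY⟩ := exists_r4 hy
  exact fix_of_mem hY hp hQ hd (hτ Y)

theorem frob_mem (hp : p.Prime) [Q.IsPrime] (hQ : (p : 𝓞 M) ∈ Q) {φ : M ≃ₐ[ℚ] M}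
    (hφ : IsArithFrobAt ℤ φ Q) (x : 𝓞 M) : φ • x - x ^ p ∈ Q := by
  have := hφ x
  rwa [under_eq hp hQ, Int.card_ideal_quot] at this

theorem frob_sq (hy : y ^ 4 = N) (hp : p.Prime) [Q.IsPrime] (hQ : (p : 𝓞 M) ∈ Q)
    (hd : ¬ (p : ℤ) ∣ 2 * N) (h3 : p % 4 = 3) {φ : M ≃ₐ[ℚ] M} (hφ : IsArithFrobAt ℤ φ Q) :
    (φ * φ) y = y := by
  obtain ⟨Y, rfl, hY⟩ := exists_r4 hy
  have := Fact.mk hp
  have hf := frob_mem hp hQ hφ
  have h1 : (φ • Y) ^ p - (Y ^ p) ^ p ∈ Q := Q.mem_of_dvd (sub_dvd_pow_sub_pow _ _ p) (hf Y)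
  have h2 : (p : ℤ) ∣ (N ^ (p - 1)) ^ (p / 4 + 1) - 1 := by
    rw [← ZMod.intCast_zmod_eq_zero_iff_dvd]
    push_cast
    rw [ZMod.pow_card_sub_one_eq_one, one_pow, sub_self]
    exact fun k => hd (((ZMod.intCast_zmod_eq_zero_iff_dvd N p).1 k).mul_left 2)
  refine fix_of_mem hY hp hQ hd ?_
  convert add_mem (add_mem (hf (φ • Y)) h1) (Q.mul_mem_left Y ((int_mem hp hQ).2 h2)) using 1
  obtain ⟨m, rfl⟩ : ∃ m, p = 4 * m + 3 := ⟨p / 4, by omega⟩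
  rw [mul_smul, show (4 * m + 3) / 4 = m by omega, show 4 * m + 3 - 1 = 4 * m + 2 from rfl]
  push_cast
  rw [← hY]
  ring

theorem frob_i (hι : ι ^ 2 = -1) (hp : p.Prime) [Q.IsPrime] (hQ : (p : 𝓞 M) ∈ Q)
    (h1 : p % 4 = 1) {φ : M ≃ₐ[ℚ] M} (hφ : IsArithFrobAt ℤ φ Q) : φ ι = ι := by
  obtain ⟨Y, rfl, hY⟩ := exists_r4 (y := ι) (N := 1) (by exact_mod_cast pow_four hι)
  refine fix_of_mem hY hp hQ (fun k => ?_) ?_
  · have := Int.le_of_dvd (by norm_num) k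
    have := hp.two_le
    omega
  · convert frob_mem hp hQ hφ Y using 2
    conv_rhs => rw [← Nat.div_add_mod p 4, h1, pow_add, pow_mul, hY, Int.cast_one, one_pow, one_mul,
      pow_one]

/-- The Frobenius element and the quartic residue character. -/
theorem frob_chi [Fact p.Prime] {z : QF.G} {r : QF.G →+* ZMod p} {χ : MulChar (ZMod p) QF.G}
    (hq : QF.Qc p z r χ) (hι : ι ^ 2 = -1) [Q.IsPrime] (hQ : (p : 𝓞 M) ∈ Q) {φ : M ≃ₐ[ℚ] M}
    (hφ : IsArithFrobAt ℤ φ Q) : ∃ ε : QF.G, ε ^ 2 = -1 ∧ ∀ (N : ℤ) (y : M) (k : ℕ),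
      ¬ (p : ℤ) ∣ 2 * N → y ^ 4 = N → φ y = ι ^ k * y → χ N = ε ^ k := by
  have hp : p.Prime := Fact.out
  obtain ⟨J, rfl, -⟩ := exists_r4 (y := ι) (N := 1) (by exact_mod_cast pow_four hι)
  have hJ : J ^ 2 = -1 := RingOfIntegers.ext (by simpa using hι)
  obtain ⟨ε, e, h1, h2, h3⟩ : ∃ (ε : QF.G) (e : ℤ), ε ^ 2 = -1 ∧ (e : ZMod p) = r ε ∧
      J - e ∈ Q := by
    obtain ⟨s, hs⟩ := ZMod.intCast_surjective (r QF.ii)
    have h0 : QF.ii ^ 2 = -1 := by decide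
    have h4 : (p : ℤ) ∣ -(s ^ 2 + 1) := by
      rw [← ZMod.intCast_zmod_eq_zero_iff_dvd]
      push_cast
      rw [hs, ← map_pow, h0]
      simp
    rcases Ideal.IsPrime.mem_or_mem ‹_› (show (J - s) * (J - (-s : ℤ)) ∈ Q by
      convert (int_mem hp hQ).2 h4 using 1
      push_cast
      linear_combination hJ) with k | k
    · exact ⟨_, s, h0, hs, k⟩
    · exact ⟨-QF.ii, -s, by rwa [neg_sq], by rw [map_neg, Int.cast_neg, hs], k⟩
  refine ⟨ε, h1, fun N y k hd hy e1 => ?_⟩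
  obtain ⟨Y, rfl, hY⟩ := exists_r4 hy
  have N0 : (N : ZMod p) ≠ 0 :=
    fun k => hd (((ZMod.intCast_zmod_eq_zero_iff_dvd N p).1 k).mul_left 2)
  have e2 : φ • Y = J ^ k * Y := RingOfIntegers.ext (e1.trans (by simp))
  have e3 : Y * ((e ^ k - N ^ (p / 4) : ℤ) : 𝓞 M) ∈ Q := by
    convert sub_mem (frob_mem hp hQ hφ Y)
      (Q.mul_mem_left Y (Q.mem_of_dvd (sub_dvd_pow_sub_pow _ _ k) h3)) using 1
    have e4 : Y ^ p = Y * (N : 𝓞 M) ^ (p / 4) := by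
      conv_lhs => rw [← Nat.div_add_mod p 4, hq.mod, pow_add, pow_mul, hY, pow_one, mul_comm]
    rw [e2, e4]
    push_cast
    ring
  have e5 := (int_mem hp hQ).1 ((Ideal.IsPrime.mem_or_mem ‹_› e3).resolve_left fun c =>
    not_mem hY hp hQ hd (by
      convert Q.mul_mem_left (4 * Y ^ 2) c using 1
      ring))
  rw [← ZMod.intCast_zmod_eq_zero_iff_dvd] at e5
  push_cast at e5
  have e6 : (ε ^ k) ^ 4 = 1 := by rw [← pow_mul, mul_comm, pow_mul, pow_four h1, one_pow]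
  refine four_eq r (by rw [hq.four _ N0, e6]) (by
    rw [hq.spec, map_pow, ← h2]
    linear_combination -e5) fun c => ?_
  have e7 : r (ε ^ k) ^ 4 = 1 := by rw [← map_pow, e6, map_one]
  have e8 : ((2 ^ 2 : ℤ) : ZMod p) = 0 := by
    push_cast
    linear_combination r (ε ^ k) * c - 4 * e7
  exact hd (((Nat.prime_iff_prime_int.1 hp).dvd_of_dvd_pow
    ((ZMod.intCast_zmod_eq_zero_iff_dvd _ p).1 e8)).mul_right N)

end Pool.Agent.Lib.MP_60ff09_nt.QB
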