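import Pool.Agent.Lib.MP_60ff09_nt.QB.Eul
import Pool.Agent.Lib.MP_60ff09_nt.QB.Den
import Pool.Agent.Lib.MP_696deb_nt.QK.Main
import Pool.Agent.Lib.MP_696deb_nt.QK.Link
import Pool.Agent.Lib.MP_696deb_nt.QA.Top0

/-! The density statements for triple products with quartic theta series. -/

set_option autoImplicit false

open scoped Classical
open Finset Filter Topology
open Pool.Agent.Lib.MP_696deb_nt Pool.Agent.Lib.MP_696deb_nt.Q4
open Pool.Agent.Lib.MP_696deb_nt.QA (Fam Wq)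
open Pool.Agent.Lib.MP_696deb_nt.B2.Stmt (CorankLE)

namespace Pool.Agent.Lib.MP_60ff09_nt.QB

variable {A B D N : ℤ}

theorem mid_of (hN : Fam N) (h : CorankLE (ED N) 1) :
    ∃ F, Mid N (if Wq N then 0 else 1) F ∧ (Wq N → CorankLE (ED N) 0) := by
  obtain ⟨F, h1, h2, h3, h4, h5, h6⟩ := (QA.good hN h).2 _ _ rfl rfl _ rfl
  exact ⟨F, ⟨⟨h1, h2⟩, h4, h5, h6⟩, fun k => by
    rw [if_pos k] at h3
    exact h3.1⟩

theorem exists_odd (hD : Squarefree D) (h : 2 < D.natAbs) :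
    ∃ q : ℕ, q.Prime ∧ q ≠ 2 ∧ (q : ℤ) ∣ D := by
  obtain ⟨q, q1, q2, q3⟩ := QA.exists_one one_ne_zero hD (by omega)
  refine ⟨q, q1, q2, by_contra fun k => ?_⟩
  rw [Nat.cast_one, one_mul, padicValInt.eq_zero_of_not_dvd k] at q3
  exact zero_ne_one q3

theorem odd_val (hB : B ≠ 0) (hA : Squarefree A) (hc : IsCoprime A B) (h : Cop B A D) {q : ℕ}
    (hq : q.Prime) (k : (q : ℤ) ∣ A * D) (i : Fin 2 × Fin 2) :
    Odd (padicValInt q (B * pw A D i)) := by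
  rcases ((val_cases hq hB hA hc h i).resolve_left fun e => e.1 k).2.2 with e | e <;> rw [e] <;>
    decide

/-- The twisting parameters in terms of one squarefree integer. -/
theorem exists_shape (hB : B ≠ 0) (hA : Squarefree A) (hc : IsCoprime A B) : ∃ (c m : ℤ)
    (e : Fin 2 × Fin 2 → ℕ), c ≠ 0 ∧ (∀ i, e i ≠ 0) ∧
    (∀ i (p : ℕ), p.Prime → p ∣ e i → (p : ℤ) ∣ c) ∧ ∀ D, Cop B A D → Squarefree (c * D) ∧
      ∀ i, m ∣ B * pw A D i ∧ B * pw A D i * m ^ 4 = e i * (c * D) ^ (2 * i.2.1 + 1) := by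
  have n0 : B.natAbs ≠ 0 := Int.natAbs_ne_zero.2 hB
  have r1 := UniqueFactorizationMonoid.radical_dvd_self (a := B.natAbs)
  have r2 := UniqueFactorizationMonoid.squarefree_radical (a := B.natAbs)
  have r3 (p : ℕ) (hp : p.Prime) (h : p ∣ B.natAbs) :
      p ∣ UniqueFactorizationMonoid.radical B.natAbs :=
    (UniqueFactorizationMonoid.dvd_radical_iff_of_irreducible hp n0).2 h
  generalize UniqueFactorizationMonoid.radical B.natAbs = r at r1 r2 r3
  have r4 : (r : ℤ) ∣ B := Int.natCast_dvd.2 r1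
  have s : B.sign = 1 ∨ B.sign = -1 := (lt_or_gt_of_ne hB).symm.imp Int.sign_eq_one_of_pos
    Int.sign_eq_neg_one_of_neg
  have u := Int.isUnit_iff.2 s
  have a0 : A.natAbs ≠ 0 := Int.natAbs_ne_zero.2 hA.ne_zero
  refine ⟨B.sign * (r * A), r * A,
    fun i => B.natAbs * r ^ (3 - 2 * i.2.1) * (A.natAbs ^ 2) ^ (i.1.1 + 2 - i.2.1),
    by simp [hB, r2.ne_zero, hA.ne_zero], fun i => by simp [hB, r2.ne_zero, hA.ne_zero],
    fun i p hp k => Dvd.dvd.mul_left ?_ _, fun D h => ⟨?_, fun i => ⟨mul_dvd_mul r4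
      ((dvd_pow_self A (Nat.succ_ne_zero _)).mul_right _), ?_⟩⟩⟩
  · rcases hp.dvd_mul.1 k with k | k
    · exact (Int.natCast_dvd_natCast.2 ((hp.dvd_mul.1 k).elim (r3 p hp)
        hp.dvd_of_dvd_pow)).mul_right _
    · exact (Int.natCast_dvd.2 (hp.dvd_of_dvd_pow (hp.dvd_of_dvd_pow k))).mul_left _
  · rw [mul_assoc, mul_assoc]
    refine squarefree_mul_iff.2 ⟨u.isRelPrime_left,
      u.squarefree, squarefree_mul_iff.2 ⟨IsCoprime.isRelPrime ?_,
        Int.squarefree_natCast.2 r2, h.sqf hA⟩⟩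
    exact (hc.mul_left h.2.of_mul_right_right).symm.of_isCoprime_of_dvd_left r4
  · have e1 := Int.sign_mul_natAbs B
    push_cast
    rw [sq_abs, pw]
    rw [Int.natCast_natAbs] at e1
    generalize |B| = b at e1
    generalize B.sign = t at e1 s
    obtain ⟨i, j⟩ := i
    fin_cases i <;> fin_cases j <;> rcases s with rfl | rfl <;> subst e1 <;> simp <;> ring

theorem few (hB : Fam B) (hA : Squarefree A) (hc : IsCoprime A B) {ε : ℝ} (hε : 0 < ε) :
    ∃ X0 : ℕ, ∀ X ≥ X0, (((Icc (-(X : ℤ)) X).filter fun D => Cop B A D ∧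
      ¬ (2 < D.natAbs ∧ ∀ i, CorankLE (ED (B * pw A D i)) 1)).card : ℝ) ≤ ε * X := by
  obtain ⟨c, m, e, c0, e0, h1, h2⟩ := exists_shape hB.ne hA hc
  obtain ⟨n, hn⟩ : ∃ n, n = c.natAbs := ⟨_, rfl⟩
  have n0 : 0 < n := hn ▸ Int.natAbs_pos.2 c0
  have n1 : (0 : ℝ) < n := Nat.cast_pos.2 n0
  choose l X0 h3 using fun i : Fin 2 × Fin 2 =>
    QK.few_bad (e0 i) i.2.1 (ε := ε / (8 * n)) (by positivity)
  obtain ⟨X1, h4⟩ := exists_nat_ge (10 / ε)
  refine ⟨max (univ.sup X0) X1, fun X hX => ?_⟩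
  have k2 : (10 : ℝ) ≤ ε * X := by
    rw [div_le_iff₀' hε] at h4
    exact h4.trans (mul_le_mul_of_nonneg_left (Nat.cast_le.2 (le_of_max_le_right hX)) hε.le)
  let S : Fin 2 × Fin 2 → Finset ℤ := fun i => (Icc (-(X : ℤ)) X).filter fun D =>
    Squarefree (c * D) ∧ QK.BadE (e i) i.2.1 (l i) (c * D)
  have k3 : ((Icc (-(X : ℤ)) X).filter fun D => Cop B A D ∧
      ¬ (2 < D.natAbs ∧ ∀ i, CorankLE (ED (B * pw A D i)) 1)) ⊆
      univ.biUnion S ∪ Icc (-2) 2 := fun D hD => by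
    obtain ⟨a1, a2, a3⟩ := mem_filter.1 hD
    by_cases k : 2 < D.natAbs
    swap
    · exact mem_union_right _ (mem_Icc.2 (by omega))
    obtain ⟨i, hi⟩ := not_forall.1 fun k' => a3 ⟨k, k'⟩
    obtain ⟨q, q1, q2, q3⟩ := exists_odd a2.1 k
    have f := fam_pw hB hA hc a2 i
    refine mem_union_left _ (mem_biUnion.2 ⟨i, mem_univ _, mem_filter.2 ⟨a1, (h2 D a2).1,
      fun p hp k => (h1 i p hp k).mul_right _, ?_⟩⟩)
    rw [← ((h2 D a2).2 i).2]
    exact QK.big_scale f.ne ((h2 D a2).2 i).1 (by_contra fun k' =>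
      hi (QK.corank_ofU f q1 q2 (odd_val hB.ne hA hc a2 q1 (q3.mul_left _) i) k'))
  have k4 : ∀ i ∈ (univ : Finset (Fin 2 × Fin 2)), ((S i).card : ℝ) ≤ ε / 8 * X := fun i _ => by
    refine le_trans (Nat.cast_le.2 (card_le_card_of_injOn (c * ·) (fun D hD => ?_)
      fun _ _ _ _ => mul_left_cancel₀ c0)) ((h3 i (n * X) (((le_sup (f := X0) (mem_univ i)).trans
        (le_of_max_le_left hX)).trans (Nat.le_mul_of_pos_left X n0))).trans (le_of_eq ?_))
    · simp only [S, coe_filter, mem_Icc, Set.mem_ofPred_eq, ← abs_le] at hD ⊢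
      refine ⟨?_, hD.2⟩
      rw [abs_mul, ← Int.natCast_natAbs c, ← hn, Nat.cast_mul]
      exact mul_le_mul_of_nonneg_left hD.1 (by positivity)
    · push_cast
      field_simp
  have k5 := Nat.cast_le (α := ℝ).2 ((card_le_card k3).trans ((card_union_le _ _).trans
    (add_le_add card_biUnion_le le_rfl)))
  have k6 := sum_le_card_nsmul _ _ _ k4
  rw [show (Icc (-2 : ℤ) 2).card = 5 by decide] at k5
  rw [show (univ : Finset (Fin 2 × Fin 2)).card = 4 by decide, nsmul_eq_mul] at k6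
  push_cast at k5 k6
  linarith

theorem tend_bound (hB : Fam B) (hA : Squarefree A) (hc : IsCoprime A B) :
    Tendsto (fun X : ℕ =>
      (Set.ncard {D : ℤ | |D| ≤ X ∧ Cop B A D ∧ BoundQ B A D (minus B A D)} : ℝ) /
        (Set.ncard {D : ℤ | |D| ≤ X ∧ Cop B A D} : ℝ)) atTop (𝓝 1) := by
  refine ratio (dens_cop hB.ne hA.ne_zero) fun ε hε => ?_
  obtain ⟨X0, h⟩ := few hB hA hc hε
  refine ⟨X0, fun X hX => le_trans (Nat.cast_le.2 (card_le_card fun D hD => ?_)) (h X hX)⟩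
  simp only [mem_filter] at hD ⊢
  refine ⟨hD.1, hD.2.1, fun k => hD.2.2 ?_⟩
  have e : minus B A D = ∑ i, if Wq (B * pw A D i) then 0 else 1 := by
    rw [minus, Set.ncard_eq_toFinset_card', Set.toFinset_ofPred, card_filter]
    simp only [ite_not]
  rw [e]
  exact bound_of hB.ne (hD.2.1.sqf hA) fun i =>
    (mid_of (fam_pw hB hA hc hD.2.1 i) (k.2 i)).imp fun _ => And.left

theorem tend_zero (hB : Fam B) (hA : Squarefree A) (h2 : Odd A) (hc : IsCoprime A B)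
    (conv : ∀ D i F, Cop B A D → 2 < D.natAbs → CorankLE (ED (B * pw A D i)) 0 →
      IsF (B * pw A D i) F → F 1 ≠ 0) :
    Tendsto (fun X : ℕ =>
      (Set.ncard {D : ℤ | |D| ≤ X ∧ (Cop B A D ∧ minus B A D = 0) ∧ HoldsQ B A D 0} : ℝ) /
        (Set.ncard {D : ℤ | |D| ≤ X ∧ Cop B A D ∧ minus B A D = 0} : ℝ)) atTop (𝓝 1) := by
  refine ratio (C := fun D => Cop B A D ∧ minus B A D = 0)
    (by convert dens_plus hB.ne hA h2 hc) fun ε hε => ?_
  obtain ⟨X0, h⟩ := few hB hA hc hε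
  refine ⟨X0, fun X hX => le_trans (Nat.cast_le.2 (card_le_card fun D hD => ?_)) (h X hX)⟩
  simp only [mem_filter] at hD ⊢
  refine ⟨hD.1, hD.2.1.1, fun k => hD.2.2 (holds_of hB.ne (hD.2.1.1.sqf hA) fun i => ?_)⟩
  obtain ⟨F, h1, h3⟩ := mid_of (fam_pw hB hA hc hD.2.1.1 i) (k.2 i)
  have w := minus_zero.1 hD.2.1.2 i
  rw [if_pos w] at h1
  exact ⟨F, h1, conv D i F hD.2.1.1 k.1 (h3 w) h1.1⟩

end Pool.Agent.Lib.MP_60ff09_nt.QB
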